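import Pool.Agent.Lib.MP_3b3418_ag.PW.SpecG

/-!
# Project PV2, part G: accounting of `D` and of the column sums
-/

set_option autoImplicit false

namespace PW

open MP3s PV

private theorem Ac_co {m : ℕ} (q : ℕ) (F : Pr m → ℕ) :
    ∑ k, (co q F k : ℤ) = ∑ p : Pr m, if p.1.2.val = q then (F p : ℤ) else 0 := by
  have h1 : ∀ k : Fin m, (co q F k : ℤ) =
      ∑ p : Pr m, if p.1.1 = k ∧ p.1.2.val = q then (F p : ℤ) else 0 := by
    intro k
    unfold co
    rw [Nat.cast_sum]
    refine Finset.sum_congr rfl fun p _ => ?_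
    split_ifs <;> simp
  rw [Finset.sum_congr rfl fun k _ => h1 k, Finset.sum_comm]
  refine Finset.sum_congr rfl fun p _ => ?_
  by_cases hq : p.1.2.val = q
  · rw [if_pos hq, Finset.sum_eq_single p.1.1]
    · rw [if_pos ⟨rfl, hq⟩]
    · intro k _ hk
      rw [if_neg]
      rintro ⟨h, -⟩
      exact hk h.symm
    · intro h
      exact absurd (Finset.mem_univ _) h
  · rw [if_neg hq]
    refine Finset.sum_eq_zero fun k _ => ?_
    rw [if_neg]
    rintro ⟨-, h⟩
    exact hq h

private theorem Ac_cs {m : ℕ} (q : ℕ) (F : Pr m → ℤ) :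
    cs (q + 1) F = cs q F + ∑ p : Pr m, if p.1.2.val = q then F p else 0 := by
  unfold cs
  rw [← Finset.sum_add_distrib]
  refine Finset.sum_congr rfl fun p _ => ?_
  by_cases h1 : p.1.2.val < q
  · rw [if_pos (by omega), if_pos h1, if_neg (by omega), add_zero]
  · by_cases h2 : p.1.2.val = q
    · rw [if_pos (by omega), if_neg h1, if_pos h2, zero_add]
    · rw [if_neg (by omega), if_neg h1, if_neg h2, zero_add]

private theorem Ac_card {m : ℕ} (q : ℕ) (hq : q < m) :
    (Finset.univ.filter fun p : Pr m => p.1.2.val = q).card = q := by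
  have h : (Finset.univ : Finset (Fin q)).card =
      (Finset.univ.filter fun p : Pr m => p.1.2.val = q).card := by
    refine Finset.card_bij (fun i _ => (⟨(⟨i.val, lt_trans i.isLt hq⟩, ⟨q, hq⟩), i.isLt⟩ : Pr m))
      ?_ ?_ ?_
    · intro i _
      rw [Finset.mem_filter]
      exact ⟨Finset.mem_univ _, rfl⟩
    · intro i _ j _ hij
      have h1 := congrArg (fun p : Pr m => p.1.1.val) hij
      exact Fin.ext h1
    · intro p hp
      rw [Finset.mem_filter] at hp
      have hlt : p.1.1.val < q := by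
        have := p.2
        have h3 : p.1.1.val < p.1.2.val := this
        omega
      refine ⟨⟨p.1.1.val, hlt⟩, Finset.mem_univ _, ?_⟩
      apply Subtype.ext
      apply Prod.ext
      · exact Fin.ext rfl
      · exact Fin.ext hp.2.symm
  rw [← h, Finset.card_univ, Fintype.card_fin]

private theorem Ac_D {m : ℕ} (A C β : Pr m → ℕ) (hA : ∀ p, A p ≤ 1) (q : ℕ) (hq : q < m) :
    (∑ p : Pr m, if p.1.2.val = q then ((A p : ℤ) - C p - 2 * β p) else 0) =
      q - (∑ k, (co q (fun p => 1 - A p) k : ℤ)) - (∑ k, (co q C k : ℤ)) -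
        2 * ∑ k, (co q β k : ℤ) := by
  have hc : (q : ℤ) = ∑ p : Pr m, if p.1.2.val = q then (1 : ℤ) else 0 := by
    have h := Ac_card (m := m) q hq
    rw [Finset.sum_ite, Finset.sum_const_zero, add_zero, Finset.sum_const, h]
    simp
  rw [Ac_co, Ac_co, Ac_co]
  conv_rhs => rw [hc]
  rw [Finset.mul_sum, ← Finset.sum_sub_distrib, ← Finset.sum_sub_distrib,
    ← Finset.sum_sub_distrib]
  refine Finset.sum_congr rfl fun p _ => ?_
  by_cases h : p.1.2.val = q
  · rw [if_pos h, if_pos h, if_pos h, if_pos h, if_pos h]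
    have h1 : ((1 - A p : ℕ) : ℤ) = 1 - (A p : ℤ) := by
      have := hA p
      omega
    rw [h1]
    ring
  · rw [if_neg h, if_neg h, if_neg h, if_neg h, if_neg h]
    ring

theorem tAc : S_P1 → S_P2 → S_Ac := by
  intro h1 h2 m A C β hA hC
  refine ⟨?_, ?_, ?_⟩
  · intro q η η' V hS
    obtain ⟨hinn, -⟩ := h1 m q η η' _ _ _ hS
    have hD := Ac_D A C β hA q hS.hq
    have hN : nn (co q fun p => 1 - A p) (co q C) (co q β) =
        (∑ k, (co q (fun p => 1 - A p) k : ℤ)) + (∑ k, (co q C k : ℤ)) +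
          ∑ k, (co q β k : ℤ) := by
      unfold nn
      rw [Finset.sum_add_distrib, Finset.sum_add_distrib]
    unfold DD dD
    rw [Ac_cs, hD, Nat.cast_add, hinn, hN]
    ring
  · intro q F
    rw [Ac_cs, Ac_co]
  · intro q η V hP
    cases hP with
    | zero =>
      refine ⟨Nat.zero_le _, fun i j _ hj => absurd hj (Nat.not_lt_zero _), fun k _ => rfl, ?_⟩
      refine Finset.sum_eq_zero fun k _ => ?_
      unfold al
      exact sub_self _
    | step q η₀ _ V hP' hS =>
      obtain ⟨-, ha, hb, hc⟩ := h2 m q η₀ _ _ _ _ hS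
      exact ⟨hS.hq, ha, hb, hc⟩

end PW
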