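import Pool.Agent.Lib.MP_3b3418_ag.PW.SpecG

/-!
CB, module of the project PV2 (MP_3b3418_ag): combinatorics, all together.
-/

set_option autoImplicit false

namespace PW

open MP3s PV

/-- There are `m (m - 1) / 2` positive roots. -/
private theorem CB_pr (m : ℕ) : 2 * Fintype.card (Pr m) = m * (m - 1) := by
  have h1 : Fintype.card (Pr m) =
      (Finset.univ.filter fun p : Fin m × Fin m => p.1 < p.2).card := by
    rw [Fintype.card_subtype]
  have h2 : (Finset.univ.filter fun p : Fin m × Fin m => p.1 < p.2).card =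
      (Finset.univ.filter fun p : Fin m × Fin m => p.2 < p.1).card := by
    refine Finset.card_bij (fun p _ => p.swap) ?_ ?_ ?_
    · intro p hp
      rw [Finset.mem_filter] at hp ⊢
      exact ⟨Finset.mem_univ _, hp.2⟩
    · intro p _ q _ h
      exact Prod.swap_injective h
    · intro p hp
      rw [Finset.mem_filter] at hp
      exact ⟨p.swap, Finset.mem_filter.2 ⟨Finset.mem_univ _, hp.2⟩, Prod.swap_swap p⟩
  have h3 : (Finset.univ : Finset (Fin m)).offDiag =
      (Finset.univ.filter fun p : Fin m × Fin m => p.1 < p.2) ∪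
        Finset.univ.filter fun p : Fin m × Fin m => p.2 < p.1 := by
    ext p
    rw [Finset.mem_offDiag, Finset.mem_union, Finset.mem_filter, Finset.mem_filter]
    constructor
    · rintro ⟨-, -, h⟩
      rcases lt_or_gt_of_ne h with h | h
      · exact Or.inl ⟨Finset.mem_univ _, h⟩
      · exact Or.inr ⟨Finset.mem_univ _, h⟩
    · rintro (⟨-, h⟩ | ⟨-, h⟩)
      · exact ⟨Finset.mem_univ _, Finset.mem_univ _, ne_of_lt h⟩
      · exact ⟨Finset.mem_univ _, Finset.mem_univ _, ne_of_gt h⟩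
  have h4 := congrArg Finset.card h3
  rw [Finset.offDiag_card, Finset.card_univ, Fintype.card_fin, Finset.card_union_of_disjoint,
    ← h2, ← h1] at h4
  · rw [two_mul, ← h4, Nat.mul_sub, Nat.mul_one]
  · rw [Finset.disjoint_left]
    intro p hp hp'
    rw [Finset.mem_filter] at hp hp'
    exact absurd hp.2 (not_lt.2 hp'.2.le)

/-- Number of letters of a kind. -/
private theorem CB_cnt {m : ℕ} (κ : Option Bool) (l : List (Lt m)) :
    Multiset.count κ ((l.map clk : List (Option Bool)) : Multiset (Option Bool)) =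
      ∑ p : Pr m, l.count (κ, p) := by
  induction l with
  | nil => simp
  | cons x l ih =>
    rw [List.map_cons, ← Multiset.cons_coe, Multiset.count_cons, ih]
    have h1 : ∀ p : Pr m, List.count (κ, p) (x :: l) =
        List.count (κ, p) l + if x = (κ, p) then 1 else 0 := by
      intro p
      rw [List.count_cons]
      by_cases h : x = (κ, p)
      · simp [h]
      · simp [h]
    rw [Finset.sum_congr rfl fun p _ => h1 p, Finset.sum_add_distrib]
    have h2 : (∑ p : Pr m, if x = (κ, p) then 1 else 0) = if κ = clk x then 1 else 0 := by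
      obtain ⟨x1, x2⟩ := x
      by_cases h : x1 = κ
      · subst h
        have h3 : ∀ p : Pr m, (if ((x1, x2) : Lt m) = (x1, p) then 1 else 0) =
            if x2 = p then 1 else 0 := by
          intro p
          by_cases hp : x2 = p
          · rw [if_pos hp, if_pos (by rw [hp])]
          · rw [if_neg hp, if_neg (fun h => hp (Prod.mk.inj h).2)]
        rw [Finset.sum_congr rfl fun p _ => h3 p, Finset.sum_ite_eq, if_pos (Finset.mem_univ _),
          if_pos (show x1 = clk (x1, x2) from rfl)]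
      · have h3 : ∀ p : Pr m, (if ((x1, x2) : Lt m) = (κ, p) then 1 else 0) = 0 := by
          intro p
          exact if_neg (fun h' => h (Prod.mk.inj h').1)
        rw [Finset.sum_congr rfl fun p _ => h3 p, Finset.sum_const_zero,
          if_neg (fun h' => h h'.symm)]
    rw [h2]

private theorem CB_cs {m : ℕ} (F : Pr m → ℤ) : cs m F = ∑ p, F p := by
  unfold cs
  exact Finset.sum_congr rfl fun p _ => if_pos p.1.2.isLt

/-- The last step. -/
private theorem CB_inv {m : ℕ} {A C β : Pr m → ℕ} {q : ℕ} {η : Fin m → ℤ} {V : ℕ}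
    (h : Pa A C β q η V) : q = 0 ∨ ∃ (q' : ℕ) (η0 : Fin m → ℤ) (V0 : ℕ), q = q' + 1 ∧
      Pa A C β q' η0 V0 ∧ Stp m q' η0 η (co q' fun p => 1 - A p) (co q' C) (co q' β) ∧
      V = V0 + inn (q' + 1) (zt q' η0 (co q' fun p => 1 - A p) (co q' C) (co q' β)) := by
  cases h with
  | zero => exact Or.inl rfl
  | step q' η0 _ V0 h1 h2 => exact Or.inr ⟨q', η0, V0, rfl, h1, h2, rfl⟩

theorem tCB : S_TS → S_PX → S_Ac → S_KB → S_KR → S_KL → S_K4 → S_CB := by
  intro TS PX Ac KB KR KL K4 m i j hreg l hadm hodd η hη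
  obtain ⟨A, hAd⟩ : ∃ A : Pr m → ℕ, A = fun p => l.count (some true, p) := ⟨_, rfl⟩
  obtain ⟨C, hCd⟩ : ∃ C : Pr m → ℕ, C = fun p => l.count (some false, p) := ⟨_, rfl⟩
  obtain ⟨β, hβd⟩ : ∃ β : Pr m → ℕ, β = fun p => l.count (none, p) := ⟨_, rfl⟩
  have hA : ∀ p, A p ≤ 1 := fun p => by rw [hAd]; exact hodd true p
  have hC : ∀ p, C p ≤ 1 := fun p => by rw [hCd]; exact hodd false p
  have hPa : Pa A C β m η i :=
    PX m (Xl l) A C β (fun p => by rw [hAd, hCd, hβd]; rfl) hA hC m η i hη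
  obtain ⟨h1, h2⟩ := hadm
  rw [CB_cnt, CB_cnt] at h1 h2
  obtain ⟨a, ha⟩ : ∃ a : ℤ, a = ∑ p, (A p : ℤ) := ⟨_, rfl⟩
  obtain ⟨b, hb⟩ : ∃ b : ℤ, b = ∑ p, (C p : ℤ) := ⟨_, rfl⟩
  obtain ⟨c, hc⟩ : ∃ c : ℤ, c = ∑ p, (β p : ℤ) := ⟨_, rfl⟩
  have hab : a + b = j := by
    rw [ha, hb, hAd, hCd, ← h1]
    push_cast
    rfl
  have hac : 2 * c = -((i : ℤ) + j) + 2 * a := by
    rw [hc, ha, hAd, hβd]
    push_cast at h2
    exact h2
  obtain ⟨n, hn⟩ : ∃ n : ℤ, n = Fintype.card (Pr m) := ⟨_, rfl⟩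
  have hn2 : 2 * n = ((m * (m - 1) : ℕ) : ℤ) := by
    rw [hn, ← CB_pr m]
    push_cast
    rfl
  obtain ⟨t, ht⟩ : ∃ t : ℕ, t = m * (m - 1) := ⟨_, rfl⟩
  unfold Reg4 at hreg
  rw [← ht] at hn2 hreg
  have hone : ∑ p : Pr m, (1 : ℤ) = n := by
    rw [hn, Finset.sum_const, Finset.card_univ, nsmul_eq_mul, mul_one]
  have s1 : cs m (fun p => (A p : ℤ) - C p - 2 * β p) = a - b - 2 * c := by
    rw [CB_cs, Finset.sum_sub_distrib, Finset.sum_sub_distrib, ← Finset.mul_sum, ← ha, ← hb, ← hc]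
  have s2 : cs m (fun p => (C p : ℤ) + β p) = b + c := by
    rw [CB_cs, Finset.sum_add_distrib, ← hb, ← hc]
  have s3 : cs m (fun p => 1 - (A p : ℤ) + β p) = n - a + c := by
    rw [CB_cs, Finset.sum_add_distrib, Finset.sum_sub_distrib, hone, ← ha, ← hc]
  have s4 : cs m (fun p => 1 - (A p : ℤ) + C p + 2 * β p) = n - a + b + 2 * c := by
    rw [CB_cs, Finset.sum_add_distrib, Finset.sum_add_distrib, Finset.sum_sub_distrib, hone,
      ← Finset.mul_sum, ← ha, ← hb, ← hc]
  have hD : DD A C β m i = 0 := by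
    unfold DD
    rw [s1]
    linarith
  obtain ⟨hAc1, -, hAc3⟩ := Ac m A C β hA hC
  obtain ⟨-, hdec, htail, hsum⟩ := hAc3 m η i hPa
  obtain ⟨-, -, hTS⟩ := TS m m η hdec
  obtain ⟨hT1, -, -⟩ := hTS htail hsum
  have hfin : (∀ k, al η k = 0) → η = del m := fun h => funext fun k => by
    have h' := h k
    unfold al at h'
    linarith
  have hle : (∀ k, al η k ≤ 0) → η = del m := fun h => hfin fun k =>
    (Finset.sum_eq_zero_iff_of_nonpos fun k _ => h k).1 hsum k (Finset.mem_univ k)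
  rcases hreg with hr | hr | hr | hr
  · refine hle fun k => ?_
    rw [← hD]
    refine KB m A C β hA hC m η i hPa (Or.inl ?_) k
    rw [s2]
    omega
  · refine hle fun k => ?_
    rw [← hD]
    refine KB m A C β hA hC m η i hPa (Or.inr ?_) k
    rw [s3]
    omega
  · by_contra hne
    have hex : ∃ k, al η k ≠ 0 := by
      by_contra h0
      push Not at h0
      exact hne (hfin h0)
    obtain ⟨k, hk⟩ := hex
    have hm : 0 < m := lt_of_le_of_lt (Nat.zero_le _) k.isLt
    have h3 := KR m A C β hA hC m η i hPa ⟨k, hk⟩ ⟨0, hm⟩ rfl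
    rw [s4] at h3
    exact hk ((hT1 ⟨0, hm⟩ rfl).2.2 (by omega) k)
  · rcases CB_inv hPa with h0 | ⟨q, η0, V0, hq, hp0, hst, hV⟩
    · subst h0
      exact funext fun k => k.elim0
    · have hqm : q < m := by omega
      have h3 : ∀ k, al η0 k ≤ DD A C β q V0 :=
        K4 m A C β hA hC q η0 V0 hp0 (by omega) hqm
      have h4 : 0 ≤ DD A C β q V0 := by
        have h5 := h3 ⟨q, hqm⟩
        have h6 : al η0 ⟨q, hqm⟩ = 0 := by
          unfold al
          rw [hst.tail ⟨q, hqm⟩ le_rfl, sub_self]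
        rwa [h6] at h5
      have h5 := hAc1 q η0 η V0 hst
      rw [← hV, ← hq, hD] at h5
      exact hfin (KL m q η0 η _ _ _ hst _ h4 h3 h5.symm)

end PW
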