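import Pool.Agent.Lib.MP_3b3418_ag.PW.SpecG

/-!
F1, module of the project PV2 (MP_3b3418_ag).
-/

set_option autoImplicit false

namespace PW

open MP3s PV

private theorem F1_card {m u : ℕ} (hu : u < m) :
    ((Finset.univ.filter fun k : Fin m => k.val < u).card : ℤ) = u := by
  have h : (Finset.univ.filter fun k : Fin m => k.val < u) = Finset.Iio (⟨u, hu⟩ : Fin m) := by
    ext k
    simp [Fin.lt_def]
  rw [h, Fin.card_Iio]

theorem tF1 : S_P1 → S_P2 → S_TS → S_F1 := by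
  intro P1 P2 TS m q η η' s b γ h
  obtain ⟨-, hu, hX, -⟩ := P1 m q η η' s b γ h
  obtain ⟨h2, hdec, -, -⟩ := P2 m q η η' s b γ h
  obtain ⟨u, hu'⟩ : ∃ u, u = uu q η s b γ := ⟨_, rfl⟩
  obtain ⟨N, hN⟩ : ∃ N, N = nn s b γ := ⟨_, rfl⟩
  rw [← hu'] at hu hX h2 ⊢
  rw [← hN] at hX h2 ⊢
  have hum : u < m := lt_of_le_of_lt hu h.hq
  obtain ⟨R, hRq, hR⟩ := h2 u (by omega)
  rcases hR with ⟨-, hRc, hRs⟩ | ⟨hlt, -, -⟩
  · have hz : ∀ k ∈ R, zt q η s b γ k = η k + ((s k : ℤ) + b k + γ k) - 1 := by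
      intro k hk
      unfold zt
      rw [if_pos (hRq k hk)]
      ring
    have h3 : ∑ k ∈ R, zt q η s b γ k = ∑ k ∈ R, η k + ∑ k ∈ R, ((s k : ℤ) + b k + γ k) - u := by
      rw [Finset.sum_congr rfl hz, Finset.sum_sub_distrib, Finset.sum_add_distrib, Finset.sum_const, hRc]
      simp
    have h4 : ∑ k ∈ R, ((s k : ℤ) + b k + γ k) ≤ N := by
      rw [hN]
      unfold nn
      exact Finset.sum_le_sum_of_subset_of_nonneg (Finset.subset_univ _) (fun k _ _ => by positivity)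
    have h5 := (TS m q η h.dec).1 R hRq
    rw [hRc] at h5
    have h6 : ∀ k ∈ Finset.univ.filter (fun k : Fin m => k.val < u),
        ((m : ℤ) - 1 - N) + ((u : ℤ) - k.val) ≤ η' k := by
      intro k hk
      have hk' : k.val < u := (Finset.mem_filter.1 hk).2
      have h7 := ((TS m (q + 1) η' hdec).2.1 k ⟨u, hum⟩ (by rw [Fin.le_def]; exact hk'.le)
        (by show u < q + 1; omega)).1
      rw [hX ⟨u, hum⟩ rfl] at h7
      exact h7
    have h7 := Finset.sum_le_sum h6
    have h8 : ∑ k : Fin m with k.val < u, al η k =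
        ∑ k : Fin m with k.val < u, η k - ∑ k : Fin m with k.val < u, ((m : ℤ) - 1 - k.val) := by
      rw [← Finset.sum_sub_distrib]
      rfl
    have h9 : ∑ k : Fin m with k.val < u, (((m : ℤ) - 1 - N) + ((u : ℤ) - k.val)) -
        ∑ k : Fin m with k.val < u, ((m : ℤ) - 1 - k.val) = u * (u - N) := by
      rw [← Finset.sum_sub_distrib]
      rw [Finset.sum_congr rfl (g := fun _ => (u : ℤ) - N) (fun k _ => by ring), Finset.sum_const,
        nsmul_eq_mul, F1_card hum]
    rw [h8]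
    have h10 : ((u : ℤ) + 1) * (u - N) = u * (u - N) + (u - N) := by ring
    rw [h10, ← h9]
    linarith
  · omega

end PW
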