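import Pool.Agent.Lib.MP_3b3418_ag.PW.SpecG

/-!
# Project PV2, part G: the first coordinate in one step
-/

set_option autoImplicit false

namespace PW

open MP3s PV

private theorem F3_card {m : ℕ} (u : ℕ) (h : u ≤ m) :
    u ≤ (Finset.univ.filter fun r : Fin m => r.val < u).card := by
  have h1 := Finset.card_le_card_of_injOn (s := (Finset.univ : Finset (Fin u)))
    (t := Finset.univ.filter fun r : Fin m => r.val < u) (Fin.castLE h)
    (by
      intro r _
      simp)
    (by
      intro a _ b _ hab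
      exact Fin.castLE_injective h hab)
  simpa using h1

private theorem F3_al {m : ℕ} (η η' : Fin m → ℤ) (z : Fin m) : al η' z - al η z = η' z - η z := by
  unfold al
  ring

private theorem F3_N {m : ℕ} (s b γ : Fin m → ℕ) : 0 ≤ nn s b γ := by
  unfold nn
  exact Finset.sum_nonneg fun k _ => by positivity

/-- a row with no letters -/
private theorem F3_row {m : ℕ} (s b γ : Fin m → ℕ) (u : ℕ) (hu : u ≤ m) (hN : (u : ℤ) = nn s b γ)
    (z : Fin m) (hz : z.val < u) (h2 : 2 ≤ s z + b z + γ z) :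
    ∃ r : Fin m, r ≠ z ∧ r.val < u ∧ s r + b r + γ r = 0 := by
  by_contra hcon
  have hall : ∀ r : Fin m, r ≠ z → r.val < u → 1 ≤ s r + b r + γ r := by
    intro r hr1 hr2
    by_contra h
    exact hcon ⟨r, hr1, hr2, by omega⟩
  set S : Finset (Fin m) := Finset.univ.filter fun r : Fin m => r.val < u with hS
  have hzS : z ∈ S := by
    rw [hS, Finset.mem_filter]
    exact ⟨Finset.mem_univ _, hz⟩
  have hcard := F3_card (m := m) u hu
  rw [← hS] at hcard
  have hle : ∑ r ∈ S, ((s r : ℤ) + b r + γ r) ≤ nn s b γ := by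
    unfold nn
    exact Finset.sum_le_sum_of_subset_of_nonneg (Finset.subset_univ _) fun r _ _ => by positivity
  have hsplit : ∑ r ∈ S, ((s r : ℤ) + b r + γ r) =
      ((s z : ℤ) + b z + γ z) + ∑ r ∈ S.erase z, ((s r : ℤ) + b r + γ r) :=
    (Finset.add_sum_erase _ _ hzS).symm
  have her := Finset.card_nsmul_le_sum (S.erase z) (fun r => (s r : ℤ) + b r + γ r) 1 (by
    intro r hr
    obtain ⟨hr1, hr2⟩ := Finset.mem_erase.1 hr
    rw [hS, Finset.mem_filter] at hr2
    have h3 := hall r hr1 hr2.2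
    exact_mod_cast h3)
  rw [nsmul_eq_mul, mul_one, Finset.card_erase_of_mem hzS] at her
  have h4 : (2 : ℤ) ≤ (s z : ℤ) + b z + γ z := by exact_mod_cast h2
  have h5 : ((S.card - 1 : ℕ) : ℤ) = (S.card : ℤ) - 1 := by
    have : 1 ≤ S.card := Finset.card_pos.2 ⟨z, hzS⟩
    push_cast [Nat.cast_sub this]
    ring
  rw [h5] at her
  have h6 : (u : ℤ) ≤ (S.card : ℤ) := by exact_mod_cast hcard
  linarith

theorem tF3 : S_P1 → S_P2 → S_P3 → S_TS → S_F3 := by
  intro hP1 hP2 hP3 hTS m q η η' s b γ h z hz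
  obtain ⟨_, huq, hX, _⟩ := hP1 m q η η' s b γ h
  obtain ⟨_, dec', tail', sum0'⟩ := hP2 m q η η' s b γ h
  obtain ⟨p1, p2, _⟩ := hP3 m q η η' s b γ h
  obtain ⟨_, ts', ts3'⟩ := hTS m (q + 1) η' dec'
  obtain ⟨_, ts, ts3⟩ := hTS m q η h.dec
  obtain ⟨hz1', hz2', hz3'⟩ := (ts3' tail' sum0').1 z hz
  obtain ⟨hz1, hz2, hz3⟩ := (ts3 h.tail h.sum0).1 z hz
  have hN := F3_N s b γ
  -- the second claim
  have two : 1 ≤ uu q η s b γ → ∃ k : Fin m, k.val < q ∧
      al η' z - al η z ≤ (s k : ℤ) + b k + γ k - 1 - k.val ∧ k.val ≤ inn q (zt q η s b γ) := by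
    intro hu
    obtain ⟨k, hk1, hk2, hk3⟩ := p1 hu z hz
    refine ⟨k, hk1, ?_, hk3⟩
    have e1 : zt q η s b γ k = η k + s k + b k + γ k - 1 := by
      unfold zt
      rw [if_pos hk1]
    have e2 := (ts z k (Fin.le_def.2 (by omega)) hk1).1
    rw [F3_al, hk2, e1]
    rw [hz] at e2
    push_cast at e2
    linarith
  refine ⟨?_, two, ?_⟩
  · intro hu
    have e1 := hX z (by rw [hz, hu])
    have e2 : al η' z = - nn s b γ := by
      unfold al del
      rw [e1, hz]
      push_cast
      ring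
    have e3 : nn s b γ = 0 := by linarith
    exact ⟨e3, hz3' (by linarith)⟩
  · intro hu hι hlt
    obtain ⟨k, hk1, hk2, hk3⟩ := two hu
    have hd : dD q η s b γ = inn q (zt q η s b γ) + ∑ k, (γ k : ℤ) := by
      unfold dD
      rw [hι]
      ring
    have hγ : (γ k : ℤ) ≤ ∑ k, (γ k : ℤ) :=
      Finset.single_le_sum (f := fun k => (γ k : ℤ)) (fun i _ => by positivity) (Finset.mem_univ k)
    have hs1 : (s k : ℤ) ≤ 1 := by exact_mod_cast h.s1 k
    have hb1 : (b k : ℤ) ≤ 1 := by exact_mod_cast h.b1 k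
    have hk3' : (k.val : ℤ) ≤ (inn q (zt q η s b γ) : ℤ) := by exact_mod_cast hk3
    have hk0 : (0 : ℤ) ≤ (k.val : ℤ) := by positivity
    have hi0 : (0 : ℤ) ≤ (inn q (zt q η s b γ) : ℤ) := by positivity
    rw [hd] at hlt
    have f1 : (inn q (zt q η s b γ) : ℤ) = 0 := by omega
    have f2 : (k.val : ℤ) = 0 := by omega
    have f3 : ∑ k, (γ k : ℤ) = γ k := by omega
    have f4 : (s k : ℤ) = 1 := by omega
    have f5 : (b k : ℤ) = 1 := by omega
    have f6 : inn q (zt q η s b γ) = 0 := by exact_mod_cast f1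
    have f7 : k = z := by
      apply Fin.ext
      rw [hz]
      exact_mod_cast f2
    have g4 : s k = 1 := by exact_mod_cast f4
    have g5 : b k = 1 := by exact_mod_cast f5
    -- a row with no letters
    obtain ⟨r, hr1, hr2, hr3⟩ := F3_row s b γ (uu q η s b γ) (huq.trans h.hq.le) hι z
      (by rw [hz]; omega) (by rw [← f7, g4, g5]; omega)
    have hrq : r.val < q := lt_of_lt_of_le hr2 huq
    have hr0 : 1 ≤ r.val := by
      rcases Nat.eq_zero_or_pos r.val with h0 | h0
      · exact absurd (Fin.ext (by rw [h0, hz])) hr1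
      · exact h0
    have g1 := p2 f6 r hr2
    have e1 : zt q η s b γ r = η r + s r + b r + γ r - 1 := by
      unfold zt
      rw [if_pos hrq]
    have hum : uu q η s b γ < m := lt_of_le_of_lt huq h.hq
    have e2 := hX ⟨uu q η s b γ, hum⟩ rfl
    have e3 := (ts' r ⟨uu q η s b γ, hum⟩ (Fin.le_def.2 hr2.le) (Nat.lt_succ_of_le huq)).1
    rw [e2, g1, e1] at e3
    have e4 : (s r : ℤ) + b r + γ r = 0 := by exact_mod_cast hr3
    have e5 : 1 ≤ al η r := by
      unfold al del
      simp only at e3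
      linarith
    refine ⟨?_, ?_, ?_, ?_, ?_⟩
    · rw [hd]
      omega
    · have := Finset.single_le_sum (f := s) (fun i _ => Nat.zero_le _) (Finset.mem_univ k)
      omega
    · have := Finset.single_le_sum (f := b) (fun i _ => Nat.zero_le _) (Finset.mem_univ k)
      omega
    · omega
    · intro z1 hz1v
      have e6 := (ts z1 r (Fin.le_def.2 (by omega)) hrq).2
      linarith

end PW
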