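import Pool.Agent.Lib.MP_3b3418_ag.PW.SpecG

/-!
# F5: steps starting from the zero state
-/

set_option autoImplicit false

namespace PW

open MP3s PV

private theorem F5_del {m : ℕ} (η : Fin m → ℤ) (h : ∀ k, al η k = 0) (k : Fin m) :
    η k = (m : ℤ) - 1 - k.val := by
  have := h k
  unfold al del at this
  linarith

private theorem F5_nn {m : ℕ} (s b γ : Fin m → ℕ) :
    nn s b γ = (∑ k, (s k : ℤ)) + (∑ k, (b k : ℤ)) + ∑ k, (γ k : ℤ) := by
  unfold nn
  rw [Finset.sum_add_distrib, Finset.sum_add_distrib]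

private theorem F5_le {m : ℕ} (γ : Fin m → ℕ) (k : Fin m) : (γ k : ℤ) ≤ ∑ l, (γ l : ℤ) :=
  Finset.single_le_sum (f := fun l => (γ l : ℤ)) (fun _ _ => Int.natCast_nonneg _)
    (Finset.mem_univ k)

theorem tF5 : S_P1 → S_P2 → S_P3 → S_TS → S_F1 → S_F3 → S_F5 := by
  intro hP1 hP2 hP3 hTS hF1 hF3 m q η η' s b γ hs h0 z hz
  obtain ⟨-, p1b, p1c, -⟩ := hP1 m q η η' s b γ hs
  obtain ⟨-, p2b, p2c, p2d⟩ := hP2 m q η η' s b γ hs
  obtain ⟨-, -, p3c⟩ := hP3 m q η η' s b γ hs
  obtain ⟨-, ts2, -⟩ := hTS m (q + 1) η' p2b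
  have f1 := hF1 m q η η' s b γ hs
  obtain ⟨f3a, f3b, -⟩ := hF3 m q η η' s b γ hs z hz
  have hq := hs.hq
  have hd := F5_del η h0
  generalize hu : uu q η s b γ = u at *
  have hum : u < m := lt_of_le_of_lt p1b hq
  have h1 : (u : ℤ) ≤ nn s b γ := by
    have hsum : ∑ k : Fin m with k.val < u, al η k = 0 :=
      Finset.sum_eq_zero fun k _ => h0 k
    rw [hsum] at f1
    by_contra hc
    push Not at hc
    have : (0 : ℤ) < ((u : ℤ) + 1) * (u - nn s b γ) := by
      apply mul_pos
      · positivity
      · linarith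
    linarith
  refine ⟨h1, ?_, ?_⟩
  · intro he
    have hnn : ∀ k, 0 ≤ al η' k := by
      intro k
      have hX := p1c ⟨u, hum⟩ rfl
      rcases lt_trichotomy k.val u with h | h | h
      · have h2 := (ts2 k ⟨u, hum⟩ (Fin.mk_le_mk.2 h.le) (Nat.lt_succ_of_le p1b)).1
        unfold al del
        simp only at h2
        rw [hX] at h2
        linarith
      · have h2 := p1c k h
        unfold al del
        have : (k.val : ℤ) = u := by exact_mod_cast h
        linarith
      · by_cases hkq : k.val ≤ q
        · have hk1 : k.val - 1 < m := by have := k.2; omega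
          have h2 := p3c k ⟨k.val - 1, hk1⟩ h hkq (by simp only; omega)
          have h3 := hd ⟨k.val - 1, hk1⟩
          unfold al del
          simp only at h3
          have h4 : ((k.val - 1 : ℕ) : ℤ) = (k.val : ℤ) - 1 := by
            have : 1 ≤ k.val := by omega
            push_cast [Nat.cast_sub this]
            ring
          rw [h4] at h3
          linarith
        · push Not at hkq
          have h2 := p2c k hkq
          unfold al
          linarith
    have := (Finset.sum_eq_zero_iff_of_nonneg (s := Finset.univ) (f := fun k => al η' k)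
      (fun k _ => hnn k)).1 p2d
    exact fun k => this k (Finset.mem_univ k)
  · intro hlt
    have huq : u = q := by
      by_contra hne
      have huq' : u < q := lt_of_le_of_ne p1b hne
      have hr : u + 1 < m := by omega
      have h2 := p3c ⟨u + 1, hr⟩ ⟨u, hum⟩ (by simp) (by simp only; omega) rfl
      have h3 := hd ⟨u, hum⟩
      have hX := p1c ⟨u, hum⟩ rfl
      have h4 := p2b ⟨u, hum⟩ ⟨u + 1, hr⟩ (Fin.mk_lt_mk.2 (Nat.lt_succ_self u))
        (by simp only; omega)
      simp only at h3
      linarith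
    have hu1 : 1 ≤ u := by
      by_contra hc
      have hu0 : u = 0 := by omega
      have := (f3a hu0).1
      rw [hu0, this] at hlt
      simp at hlt
    obtain ⟨k, hk, h2, -⟩ := f3b hu1
    have hz0 := h0 z
    have hsk : (s k : ℤ) ≤ 1 := by exact_mod_cast hs.s1 k
    have hbk : (b k : ℤ) ≤ 1 := by exact_mod_cast hs.b1 k
    have hγk := F5_le γ k
    have hN := F5_nn s b γ
    have hk0 : (0 : ℤ) ≤ k.val := Int.natCast_nonneg _
    have hqu : (q : ℤ) = u := by exact_mod_cast huq.symm
    linarith

end PW
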