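import Pool.Agent.Lib.MP_3b3418_ag.PW.SpecG

/-!
# Project PV2, part G, module KB: `al η ≤ D` if `B ≤ 2` or `T ≤ 2`
-/

set_option autoImplicit false

namespace PW

open MP3s PV

private theorem KB_step {m q : ℕ} {η η' : Fin m → ℤ} {s b γ : Fin m → ℕ} (P2 : S_P2)
    (TS : S_TS) (F1 : S_F1) (F3 : S_F3) (h : Stp m q η η' s b γ) {D B x : ℤ}
    (hD : ∀ k, al η k ≤ D) (hB : pp η ≤ B) (hx0 : 0 ≤ x)
    (hx : 1 ≤ ∑ k, s k → 1 ≤ ∑ k, b k → 1 ≤ x) (hs : B + (x + ∑ k, (γ k : ℤ)) ≤ 2) :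
    ∀ k, al η' k ≤ D + dD q η s b γ := by
  have hm : 0 < m := lt_of_le_of_lt (Nat.zero_le q) h.hq
  obtain ⟨z, hz⟩ : ∃ z : Fin m, z.val = 0 := ⟨⟨0, hm⟩, rfl⟩
  obtain ⟨-, hdec', htail', hsum'⟩ := P2 m q η η' s b γ h
  obtain ⟨-, -, hT⟩ := TS m q η h.dec
  obtain ⟨hT1, hT2, -⟩ := hT h.tail h.sum0
  obtain ⟨hz0, hzmax, -⟩ := hT1 z hz
  obtain ⟨-, -, hT'⟩ := TS m (q + 1) η' hdec'
  obtain ⟨hT1', -, -⟩ := hT' htail' hsum'
  obtain ⟨-, hzmax', -⟩ := hT1' z hz
  obtain ⟨f1, f2, f3⟩ := F3 m q η η' s b γ h z hz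
  have hc0 : 0 ≤ ∑ k, (γ k : ℤ) := Finset.sum_nonneg fun k _ => Int.natCast_nonneg _
  have hdD : dD q η s b γ = (inn q (zt q η s b γ) : ℤ) + (∑ k, (γ k : ℤ)) -
      ((uu q η s b γ : ℤ) - nn s b γ) := rfl
  have hinn : (0 : ℤ) ≤ (inn q (zt q η s b γ) : ℤ) := Int.natCast_nonneg _
  rcases Nat.eq_zero_or_pos (uu q η s b γ) with hu | hu
  · obtain ⟨hN, hη'⟩ := f1 hu
    intro k
    rw [hη' k, hdD, hu, hN]
    have h1 := hz0.trans (hD z)
    push_cast
    linarith
  · have key : al η' z - al η z ≤ dD q η s b γ := by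
      obtain ⟨k0, hk0, hk1, hk2⟩ := f2 hu
      have hγ : (γ k0 : ℤ) ≤ ∑ k, (γ k : ℤ) :=
        Finset.single_le_sum (f := fun k => (γ k : ℤ)) (fun k _ => Int.natCast_nonneg _)
          (Finset.mem_univ k0)
      have hs1 : (s k0 : ℤ) ≤ 1 := by exact_mod_cast h.s1 k0
      have hb1 : (b k0 : ℤ) ≤ 1 := by exact_mod_cast h.b1 k0
      have hk2' : (k0.val : ℤ) ≤ inn q (zt q η s b γ) := by exact_mod_cast hk2
      have hk3 : (0 : ℤ) ≤ (k0.val : ℤ) := Int.natCast_nonneg _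
      rcases lt_trichotomy (uu q η s b γ : ℤ) (nn s b γ) with hι | hι | hι
      · rw [hdD]
        linarith
      · by_contra hcon
        push Not at hcon
        obtain ⟨-, hs2, hb2, hq1, hz1⟩ := f3 hu hι hcon
        obtain ⟨z1, hz1v⟩ : ∃ z1 : Fin m, z1.val = 1 := ⟨⟨1, hq1.trans h.hq⟩, rfl⟩
        have h1 := hz1 z1 hz1v
        have h2 := hzmax z1
        have hne : z ≠ z1 := by
          intro he
          rw [he, hz1v] at hz
          exact absurd hz one_ne_zero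
        have h3 : ∑ k ∈ ({z, z1} : Finset (Fin m)), max (al η k) 0 ≤ pp η :=
          Finset.sum_le_sum_of_subset_of_nonneg (Finset.subset_univ _)
            fun k _ _ => le_max_right _ _
        rw [Finset.sum_pair hne] at h3
        have h4 := le_max_left (al η z) 0
        have h5 := le_max_left (al η z1) 0
        have h6 := hx hs2 hb2
        linarith
      · have hF1 := F1 m q η η' s b γ h
        have h1 := (hF1.trans (hT2 (uu q η s b γ))).trans hB
        have h2 : ((uu q η s b γ : ℤ) + 1) * (uu q η s b γ - nn s b γ) ≤ 2 := by linarith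
        have hu' : (1 : ℤ) ≤ (uu q η s b γ : ℤ) := by exact_mod_cast hu
        have h3 : (uu q η s b γ : ℤ) = 1 := by nlinarith
        have h4 : nn s b γ = 0 := by
          rw [h3] at h2 hι
          omega
        have h5 : (s k0 : ℤ) + b k0 + γ k0 ≤ nn s b γ :=
          Finset.single_le_sum (f := fun k => (s k : ℤ) + b k + γ k)
            (fun k _ => by positivity) (Finset.mem_univ k0)
        rw [hdD, h3, h4]
        rw [h4] at h5
        linarith
    intro k
    have h1 := hzmax' k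
    have h2 := hD z
    linarith

private theorem KB_cs_add {m : ℕ} (q : ℕ) (F G : Pr m → ℤ) :
    cs q (fun p => F p + G p) = cs q F + cs q G := by
  unfold cs
  rw [← Finset.sum_add_distrib]
  refine Finset.sum_congr rfl fun p _ => ?_
  split_ifs
  · rfl
  · rw [add_zero]

private theorem KB_cs_zero {m : ℕ} (F : Pr m → ℤ) : cs 0 F = 0 := by
  unfold cs
  refine Finset.sum_eq_zero fun p _ => ?_
  rw [if_neg (Nat.not_lt_zero _)]

private theorem KB_al_del {m : ℕ} (k : Fin m) : al (del m) k = 0 := sub_self _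

private theorem KB_pp_del (m : ℕ) : pp (del m) = 0 := by
  unfold pp
  refine Finset.sum_eq_zero fun k _ => ?_
  rw [KB_al_del, max_self]

theorem tKB : S_P1 → S_P2 → S_TS → S_F1 → S_F2 → S_F3 → S_Ac → S_KB := by
  intro _ P2 TS F1 F2 F3 Ac m A C β hA hC q η V hPa
  obtain ⟨a1, a2, -⟩ := Ac m A C β hA hC
  have e1 : ∀ q, cs q (fun p => (C p : ℤ) + β p) =
      cs q (fun p => (C p : ℤ)) + cs q fun p => (β p : ℤ) := fun q => KB_cs_add q _ _
  have e2 : ∀ q, cs q (fun p => 1 - (A p : ℤ) + β p) =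
      cs q (fun p => ((1 - A p : ℕ) : ℤ)) + cs q fun p => (β p : ℤ) := by
    intro q
    rw [← KB_cs_add]
    congr 1
    funext p
    rw [Nat.cast_sub (hA p), Nat.cast_one]
  have main : (cs q (fun p => (C p : ℤ) + β p) ≤ 2 →
      (∀ k, al η k ≤ DD A C β q V) ∧ pp η ≤ cs q (fun p => (C p : ℤ) + β p)) ∧
      (cs q (fun p => 1 - (A p : ℤ) + β p) ≤ 2 →
      (∀ k, al η k ≤ DD A C β q V) ∧ pp η ≤ cs q (fun p => 1 - (A p : ℤ) + β p)) := by
    induction hPa with
    | zero =>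
      have h0 : DD A C β 0 0 = 0 := by
        unfold DD
        rw [KB_cs_zero]
        rfl
      refine ⟨fun _ => ⟨fun k => ?_, ?_⟩, fun _ => ⟨fun k => ?_, ?_⟩⟩
      · rw [h0, KB_al_del]
      · rw [KB_pp_del, KB_cs_zero]
      · rw [h0, KB_al_del]
      · rw [KB_pp_del, KB_cs_zero]
    | step q η η' V _ hst ih =>
      obtain ⟨ih1, ih2⟩ := ih
      have hnC : 0 ≤ ∑ k, (co q C k : ℤ) := Finset.sum_nonneg fun k _ => Int.natCast_nonneg _
      have hnβ : 0 ≤ ∑ k, (co q β k : ℤ) := Finset.sum_nonneg fun k _ => Int.natCast_nonneg _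
      have hnA : 0 ≤ ∑ k, (co q (fun p => 1 - A p) k : ℤ) :=
        Finset.sum_nonneg fun k _ => Int.natCast_nonneg _
      have b1 := a2 q C
      have b2 := a2 q β
      have b3 := a2 q fun p => 1 - A p
      obtain ⟨g1, g2⟩ := F2 m q η η' _ _ _ hst
      rw [a1 q η η' V hst, e1, e2, b1, b2, b3]
      rw [e1] at ih1
      rw [e2] at ih2
      constructor
      · intro hle
        obtain ⟨i1, i2⟩ := ih1 (by linarith)
        refine ⟨KB_step P2 TS F1 F3 hst (x := ∑ k, (co q C k : ℤ)) i1 i2 hnC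
          (fun _ h4 => by exact_mod_cast h4) (by linarith), by linarith⟩
      · intro hle
        obtain ⟨i1, i2⟩ := ih2 (by linarith)
        refine ⟨KB_step P2 TS F1 F3 hst (x := ∑ k, (co q (fun p => 1 - A p) k : ℤ)) i1 i2 hnA
          (fun h4 _ => by exact_mod_cast h4) (by linarith), by linarith⟩
  intro hor
  rcases hor with h | h
  · exact (main.1 h).1
  · exact (main.2 h).1

end PW
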