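import Pool.Agent.Lib.MP_3b3418_ag.PW.SpecG

/-!
# Project PV2, part G: the last step
-/

set_option autoImplicit false

namespace PW

open MP3s PV

private theorem KL_card (m u : ℕ) : ((Finset.univ.filter fun k : Fin m => k.val < u).card : ℤ) ≤ u := by
  have h : (Finset.univ.filter fun k : Fin m => k.val < u).card ≤ (Finset.range u).card := by
    refine Finset.card_le_card_of_injOn (fun k => k.val) ?_ ?_
    · intro k hk
      simp only [Finset.coe_filter, Finset.mem_univ, true_and, Set.mem_ofPred_eq] at hk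
      exact Finset.mem_coe.2 (Finset.mem_range.2 hk)
    · intro a _ b _ hab
      exact Fin.ext hab
  rw [Finset.card_range] at h
  exact_mod_cast h

theorem tKL : S_F1 → S_F5 → S_TS → S_KL := by
  intro hF1 hF5 _ m q η η' s b γ hst D hD hal h0
  have h1 := hF1 m q η η' s b γ hst
  have h2 : ∑ k : Fin m with k.val < uu q η s b γ, al η k ≤ (uu q η s b γ : ℤ) * D := by
    calc ∑ k : Fin m with k.val < uu q η s b γ, al η k
        ≤ ∑ k : Fin m with k.val < uu q η s b γ, D := Finset.sum_le_sum fun k _ => hal k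
      _ = ((Finset.univ.filter fun k : Fin m => k.val < uu q η s b γ).card : ℤ) * D := by
          rw [Finset.sum_const, nsmul_eq_mul]
      _ ≤ (uu q η s b γ : ℤ) * D := mul_le_mul_of_nonneg_right (KL_card m _) hD
  have hc : 0 ≤ ∑ k, (γ k : ℤ) := Finset.sum_nonneg fun k _ => by positivity
  unfold dD at h0
  have hu : (0 : ℤ) ≤ (uu q η s b γ : ℤ) := by positivity
  have hi : (0 : ℤ) ≤ (inn q (zt q η s b γ) : ℤ) := by positivity
  set u : ℤ := (uu q η s b γ : ℤ)
  set c : ℤ := ∑ k, (γ k : ℤ)
  set i : ℤ := (inn q (zt q η s b γ) : ℤ)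
  have h3 : u - nn s b γ = D + i + c := by linarith
  have h4 : (u + 1) * (D + i + c) ≤ u * D := by
    rw [← h3]
    exact h1.trans h2
  have h5 : 0 ≤ u * i := mul_nonneg hu hi
  have h6 : 0 ≤ u * c := mul_nonneg hu hc
  have h7 : D + i + c ≤ 0 := by nlinarith
  have hD0 : D = 0 := by linarith
  have hz : ∀ k, al η k = 0 := by
    have h8 : ∀ k ∈ (Finset.univ : Finset (Fin m)), al η k ≤ 0 := fun k _ => by
      have := hal k
      rwa [hD0] at this
    have h9 := (Finset.sum_eq_zero_iff_of_nonpos h8).1 hst.sum0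
    exact fun k => h9 k (Finset.mem_univ k)
  have hm : 0 < m := lt_of_le_of_lt (Nat.zero_le q) hst.hq
  have h10 := (hF5 m q η η' s b γ hst hz ⟨0, hm⟩ rfl).2.1
  exact h10 (by linarith)

end PW
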