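import Pool.Agent.Lib.MP_3b3418_ag.PW.SpecG

/-!
# Project PV2, statement KR: the cost of a nonzero state
-/

set_option autoImplicit false

namespace PW

open MP3s PV

private theorem KR_co {m : ℕ} (q : ℕ) (F G H : Pr m → ℕ) (l : Fin m) :
    co q (fun p => F p + G p + 2 * H p) l = co q F l + co q G l + 2 * co q H l := by
  unfold co
  rw [Finset.mul_sum, ← Finset.sum_add_distrib, ← Finset.sum_add_distrib]
  refine Finset.sum_congr rfl fun p _ => ?_
  split_ifs <;> simp

private theorem KR_sum {m : ℕ} (q : ℕ) (F G H : Pr m → ℕ) :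
    (∑ k, (co q (fun p => F p + G p + 2 * H p) k : ℤ)) =
      (∑ k, (co q F k : ℤ)) + (∑ k, (co q G k : ℤ)) + 2 * ∑ k, (co q H k : ℤ) := by
  rw [Finset.mul_sum, ← Finset.sum_add_distrib, ← Finset.sum_add_distrib]
  refine Finset.sum_congr rfl fun k _ => ?_
  rw [KR_co]
  push_cast
  ring

private theorem KR_le {m : ℕ} (f : Fin m → ℕ) (k : Fin m) : (f k : ℤ) ≤ ∑ l, (f l : ℤ) :=
  Finset.single_le_sum (f := fun l => (f l : ℤ)) (fun l _ => Int.natCast_nonneg (f l))
    (Finset.mem_univ k)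

private theorem KR_nn {m : ℕ} (f : Fin m → ℕ) : (0 : ℤ) ≤ ∑ l, (f l : ℤ) :=
  Finset.sum_nonneg fun l _ => Int.natCast_nonneg (f l)

private theorem KR_cs {m : ℕ} (q : ℕ) (F : Pr m → ℕ) : (0 : ℤ) ≤ cs q (fun p => (F p : ℤ)) := by
  unfold cs
  refine Finset.sum_nonneg fun p _ => ?_
  split_ifs
  · exact Int.natCast_nonneg _
  · exact le_rfl

/-- **KR**: the cost of a state which is not zero. -/
theorem tKR : S_P1 → S_P2 → S_TS → S_F3 → S_F5 → S_Ac → S_KR := by
  intro _ _ _ hF3 hF5 hAc m A C β hA hC q η V hPa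
  obtain ⟨_, hcs, _⟩ := hAc m A C β hA hC
  have hcast : (fun p : Pr m => 1 - (A p : ℤ) + C p + 2 * β p) =
      fun p => (((1 - A p) + C p + 2 * β p : ℕ) : ℤ) := by
    funext p
    have := hA p
    push_cast [Nat.cast_sub this]
    ring
  rw [hcast]
  induction hPa with
  | zero =>
    rintro ⟨k, hk⟩
    exact absurd (by simp [al]) hk
  | step q η η' V hPa hst ih =>
    intro hne z hz
    have h1 : cs (q + 1) (fun p => (((1 - A p) + C p + 2 * β p : ℕ) : ℤ)) =
        cs q (fun p => (((1 - A p) + C p + 2 * β p : ℕ) : ℤ)) +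
          ((∑ k, (co q (fun p => 1 - A p) k : ℤ)) + (∑ k, (co q C k : ℤ)) +
            2 * ∑ k, (co q β k : ℤ)) := by
      rw [hcs q (fun p => (1 - A p) + C p + 2 * β p), KR_sum]
    have hq1 : ((q + 1 : ℕ) : ℤ) = (q : ℤ) + 1 := Nat.cast_succ q
    rw [h1, hq1]
    have hs0 := KR_nn (co q fun p => 1 - A p)
    have hb0 := KR_nn (co q C)
    have hg0 := KR_nn (co q β)
    have hc0 := KR_cs q (fun p => (1 - A p) + C p + 2 * β p)
    obtain ⟨f1, f2, _⟩ := hF3 m q η η' _ _ _ hst z hz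
    have hu : 1 ≤ uu q η (co q fun p => 1 - A p) (co q C) (co q β) := by
      by_contra hcon
      obtain ⟨k, hk⟩ := hne
      exact hk ((f1 (by omega)).2 k)
    by_cases hz0 : ∀ k, al η k = 0
    · obtain ⟨g1, g2, g3⟩ := hF5 m q η η' _ _ _ hst hz0 z hz
      rcases lt_or_eq_of_le g1 with hlt | heq
      · have := g3 hlt
        linarith
      · obtain ⟨k, hk⟩ := hne
        exact absurd (g2 heq k) hk
    · push Not at hz0
      have hih := ih hz0 z hz
      obtain ⟨k, hkq, hk, _⟩ := f2 hu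
      have e1 := KR_le (co q fun p => 1 - A p) k
      have e2 := KR_le (co q C) k
      have e3 := KR_le (co q β) k
      have e4 : (0 : ℤ) ≤ (k.val : ℤ) := Int.natCast_nonneg _
      linarith

end PW
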