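import Pool.Agent.Lib.MP_3b3418_ag.PW.SpecG

/-!
# Project PV2, statement P1: the position of the new entry after sorting, the number of inversions
-/

set_option autoImplicit false

namespace PW

open MP3s PV

/-- The permutation of a sorting keeps the first entries. -/
private theorem P1_stay {m n : ℕ} (s : Equiv.Perm (Fin m)) (h : ∀ k : Fin m, n ≤ k.val → s k = k)
    (k : Fin m) (hk : k.val < n) : (s k).val < n := by
  by_contra hcon
  push Not at hcon
  have h1 := h (s k) hcon
  have h2 := s.injective h1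
  rw [h2] at hcon
  omega

private theorem P1_stay_symm {m n : ℕ} (s : Equiv.Perm (Fin m))
    (h : ∀ k : Fin m, n ≤ k.val → s k = k) (k : Fin m) (hk : k.val < n) :
    (s.symm k).val < n := by
  refine P1_stay s.symm (fun j hj => ?_) k hk
  rw [Equiv.symm_apply_eq]
  exact (h j hj).symm

/-- The pairs counted in `inn (q + 1)`. -/
private theorem P1_inn {m : ℕ} (q : ℕ) (hq : q < m) (ζ : Fin m → ℤ) :
    inn (q + 1) ζ = inn q ζ +
      (Finset.univ.filter fun l : Fin m => l.val < q ∧ ζ l < ζ ⟨q, hq⟩).card := by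
  classical
  have h1 : (Finset.univ.filter fun p : Fin m × Fin m =>
      p.1 < p.2 ∧ p.2.val < q + 1 ∧ ζ p.1 < ζ p.2) =
      (Finset.univ.filter fun p : Fin m × Fin m => p.1 < p.2 ∧ p.2.val < q ∧ ζ p.1 < ζ p.2) ∪
      (Finset.univ.filter fun l : Fin m => l.val < q ∧ ζ l < ζ ⟨q, hq⟩).image
        (fun l => (l, (⟨q, hq⟩ : Fin m))) := by
    ext ⟨a, c⟩
    simp only [Finset.mem_filter, Finset.mem_univ, true_and, Finset.mem_union,
      Finset.mem_image, Prod.mk.injEq]
    constructor
    · rintro ⟨hac, hc, hz⟩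
      rcases Nat.lt_succ_iff_lt_or_eq.1 hc with h | h
      · exact Or.inl ⟨hac, h, hz⟩
      · right
        have hcq : c = ⟨q, hq⟩ := Fin.ext h
        subst hcq
        exact ⟨a, ⟨hac, hz⟩, rfl, rfl⟩
    · rintro (⟨hac, hc, hz⟩ | ⟨l, ⟨hl, hz⟩, rfl, rfl⟩)
      · exact ⟨hac, by omega, hz⟩
      · exact ⟨hl, Nat.lt_succ_self q, hz⟩
  unfold inn
  rw [h1, Finset.card_union_of_disjoint, Finset.card_image_of_injective]
  · intro a c hac
    exact (Prod.mk.injEq _ _ _ _ ▸ hac).1
  · rw [Finset.disjoint_left]
    rintro ⟨a, c⟩ h2 h3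
    simp only [Finset.mem_filter, Finset.mem_univ, true_and, Finset.mem_image,
      Prod.mk.injEq] at h2 h3
    obtain ⟨l, _, _, h4⟩ := h3
    have h5 : c.val = q := by rw [← h4]
    omega

/-- The rows below `q`. -/
private theorem P1_card {m : ℕ} (q : ℕ) (hq : q < m) :
    (Finset.univ.filter fun l : Fin m => l.val < q).card = q := by
  have h : (Finset.univ.filter fun l : Fin m => l.val < q) = Finset.Iio (⟨q, hq⟩ : Fin m) := by
    ext l
    simp [Fin.lt_def]
  rw [h, Fin.card_Iio]

/-- **P1** -/
theorem tP1 : S_P1 := by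
  classical
  intro m q η η' s b γ hst
  have hq := hst.hq
  obtain ⟨σ, hfix, hη', hdec⟩ := hst.srt
  have hX : zt q η s b γ ⟨q, hq⟩ = (m : ℤ) - 1 - nn s b γ := by
    unfold zt
    simp
  have huu : uu q η s b γ = (Finset.univ.filter fun l : Fin m =>
      l.val < q ∧ zt q η s b γ ⟨q, hq⟩ < zt q η s b γ l).card := by
    unfold uu
    rw [hX]
  rw [← hX]
  generalize hζ : zt q η s b γ = ζ at *
  rw [huu]
  clear huu
  set Q : Fin m := ⟨q, hq⟩ with hQ
  -- the values are distinct
  have hinj : ∀ l : Fin m, l.val < q → ζ l ≠ ζ Q := by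
    intro l hl hne
    have e1 : (σ.symm l).val < q + 1 := P1_stay_symm σ hfix l (by omega)
    have e2 : (σ.symm Q).val < q + 1 := P1_stay_symm σ hfix Q (by simp [hQ])
    have e3 : η' (σ.symm l) = ζ l := by rw [hη', Equiv.apply_symm_apply]
    have e4 : η' (σ.symm Q) = ζ Q := by rw [hη', Equiv.apply_symm_apply]
    rcases lt_trichotomy (σ.symm l) (σ.symm Q) with h | h | h
    · have := hdec _ _ h e2
      rw [e3, e4] at this
      omega
    · have := σ.symm.injective h
      rw [this] at hl
      simp [hQ] at hl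
    · have := hdec _ _ h e1
      rw [e3, e4] at this
      omega
  -- the count
  have hsplit : (Finset.univ.filter fun l : Fin m => l.val < q ∧ ζ l < ζ Q).card +
      (Finset.univ.filter fun l : Fin m => l.val < q ∧ ζ Q < ζ l).card = q := by
    rw [← Finset.card_union_of_disjoint]
    · rw [← Finset.filter_or]
      have h2 : (Finset.univ.filter fun l : Fin m =>
          (l.val < q ∧ ζ l < ζ Q) ∨ (l.val < q ∧ ζ Q < ζ l)) =
          Finset.univ.filter fun l : Fin m => l.val < q := by
        ext l
        simp only [Finset.mem_filter, Finset.mem_univ, true_and]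
        constructor
        · rintro (h | h)
          · exact h.1
          · exact h.1
        · intro h
          rcases lt_or_gt_of_ne (hinj l h) with h3 | h3
          · exact Or.inl ⟨h, h3⟩
          · exact Or.inr ⟨h, h3⟩
      rw [h2, P1_card q hq]
    · rw [Finset.disjoint_left]
      intro l h3 h4
      simp only [Finset.mem_filter, Finset.mem_univ, true_and] at h3 h4
      omega
  -- the position of the new entry
  set k0 : Fin m := σ.symm Q with hk0
  have hk0q : k0.val < q + 1 := P1_stay_symm σ hfix Q (by simp [hQ])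
  have hk0v : η' k0 = ζ Q := by rw [hη', hk0, Equiv.apply_symm_apply]
  have hpos : ∀ k : Fin m, k < k0 ↔ k.val < q + 1 ∧ ζ Q < η' k := by
    intro k
    constructor
    · intro h
      refine ⟨lt_trans (Fin.lt_def.1 h) hk0q, ?_⟩
      rw [← hk0v]
      exact hdec _ _ h hk0q
    · rintro ⟨h1, h2⟩
      by_contra hcon
      rcases lt_or_eq_of_le (not_lt.1 hcon) with h3 | h3
      · have := hdec _ _ h3 h1
        rw [hk0v] at this
        omega
      · rw [← h3, hk0v] at h2
        omega
  have hcard : (Finset.univ.filter fun l : Fin m => l.val < q ∧ ζ Q < ζ l).card = k0.val := by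
    rw [← Fin.card_Iio k0]
    symm
    refine Finset.card_bij (fun k _ => σ k) ?_ ?_ ?_
    · intro k hk
      rw [Finset.mem_Iio] at hk
      obtain ⟨h1, h2⟩ := (hpos k).1 hk
      simp only [Finset.mem_filter, Finset.mem_univ, true_and]
      rw [hη'] at h2
      refine ⟨?_, h2⟩
      have h3 := P1_stay σ hfix k h1
      rcases Nat.lt_succ_iff_lt_or_eq.1 h3 with h4 | h4
      · exact h4
      · exfalso
        have h5 : σ k = Q := Fin.ext h4
        rw [h5] at h2
        omega
    · intro a _ c _ hac
      exact σ.injective hac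
    · intro l hl
      simp only [Finset.mem_filter, Finset.mem_univ, true_and] at hl
      refine ⟨σ.symm l, ?_, Equiv.apply_symm_apply σ l⟩
      rw [Finset.mem_Iio]
      refine (hpos _).2 ⟨P1_stay_symm σ hfix l (by omega), ?_⟩
      rw [hη', Equiv.apply_symm_apply]
      exact hl.2
  have hinn := P1_inn q hq ζ
  rw [← hQ] at hinn
  refine ⟨?_, ?_, ?_, ?_⟩
  · rw [hinn]
    push_cast
    have : ((Finset.univ.filter fun l : Fin m => l.val < q ∧ ζ l < ζ Q).card : ℤ) +
        ((Finset.univ.filter fun l : Fin m => l.val < q ∧ ζ Q < ζ l).card : ℤ) = q := by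
      exact_mod_cast hsplit
    linarith
  · omega
  · intro k hk
    rw [hcard] at hk
    have : k = k0 := Fin.ext hk
    rw [this, hk0v]
  · intro k
    rw [hcard]
    have h1 := hpos k
    rw [Fin.lt_def] at h1
    rw [h1, Nat.lt_succ_iff]

end PW
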