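import Pool.Agent.Lib.MP_3b3418_ag.PW.SpecG

/-!
# PV2, module G/P2: partial sums after sorting, state conditions after a step
-/

set_option autoImplicit false

namespace PW

open MP3s PV

/-- the number of positions `< r` -/
private theorem P2_card {m r : ℕ} (hr : r ≤ m) :
    (Finset.univ.filter fun k : Fin m => k.val < r).card = r := by
  have h := Fin.card_filter_val_lt (n := m) (m := r)
  rw [h]
  exact min_eq_right hr

/-- the entry `q` of `zt` -/
private theorem P2_ztq {m q : ℕ} (η : Fin m → ℤ) (s b γ : Fin m → ℕ) (k : Fin m) (hk : k.val = q) :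
    zt q η s b γ k = (m : ℤ) - 1 - nn s b γ := by
  unfold zt
  rw [if_neg (by omega), if_pos hk]

/-- the sum of the entries of `zt` -/
private theorem P2_sum {m q : ℕ} (hq : q < m) (η : Fin m → ℤ) (s b γ : Fin m → ℕ)
    (tail : ∀ k : Fin m, q ≤ k.val → η k = del m k)
    (supp : ∀ l : Fin m, q ≤ l.val → s l = 0 ∧ b l = 0 ∧ γ l = 0) :
    ∑ k, zt q η s b γ k = ∑ k, η k := by
  have hpt : ∀ l : Fin m, zt q η s b γ l = η l + (((s l : ℤ) + b l + γ l)
      - (if l.val < q then (1 : ℤ) else 0)
      + (if l = (⟨q, hq⟩ : Fin m) then ((q : ℤ) - nn s b γ) else 0)) := by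
    intro l
    unfold zt
    by_cases h1 : l.val < q
    · have h2 : l ≠ (⟨q, hq⟩ : Fin m) := by
        intro h
        rw [h] at h1
        exact lt_irrefl _ h1
      rw [if_pos h1, if_pos h1, if_neg h2]
      ring
    · obtain ⟨e1, e2, e3⟩ := supp l (by omega)
      by_cases h3 : l.val = q
      · have h4 : l = (⟨q, hq⟩ : Fin m) := Fin.ext h3
        have h5 : η l = (m : ℤ) - 1 - q := by
          rw [tail l (by omega)]
          unfold del
          rw [h3]
        rw [if_neg h1, if_pos h3, if_neg h1, if_pos h4, h5, e1, e2, e3]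
        push_cast
        ring
      · have h4 : l ≠ (⟨q, hq⟩ : Fin m) := by
          intro h
          exact h3 (by rw [h])
        rw [if_neg h1, if_neg h3, if_neg h1, if_neg h4, e1, e2, e3]
        push_cast
        ring
  have hc : ∑ l : Fin m, (if l.val < q then (1 : ℤ) else 0) = q := by
    rw [Finset.sum_boole, P2_card hq.le]
  rw [Finset.sum_congr rfl fun l _ => hpt l, Finset.sum_add_distrib, Finset.sum_add_distrib,
    Finset.sum_sub_distrib, hc, Finset.sum_ite_eq' Finset.univ (⟨q, hq⟩ : Fin m),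
    if_pos (Finset.mem_univ _)]
  unfold nn
  ring

theorem tP2 : S_P1 → S_P2 := by
  intro hP1 m q η η' s b γ h
  obtain ⟨-, huq, hpu, -⟩ := hP1 m q η η' s b γ h
  obtain ⟨hq, dec, tail, sum0, s1, b1, supp, srt⟩ := h
  obtain ⟨σ, hfix, hσ, hdec⟩ := srt
  have hum : uu q η s b γ < m := lt_of_le_of_lt huq hq
  -- the position of the new entry
  have hp1 : (σ.symm (⟨q, hq⟩ : Fin m)).val ≤ q := by
    by_contra hcon
    have h1 : q + 1 ≤ (σ.symm (⟨q, hq⟩ : Fin m)).val := by omega
    have h2 := hfix _ h1
    rw [Equiv.apply_symm_apply] at h2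
    rw [← h2] at h1
    simp at h1
  have hp2 : η' (σ.symm (⟨q, hq⟩ : Fin m)) = (m : ℤ) - 1 - nn s b γ := by
    rw [hσ, Equiv.apply_symm_apply]
    exact P2_ztq η s b γ _ rfl
  have hp3 : (σ.symm (⟨q, hq⟩ : Fin m)) = (⟨uu q η s b γ, hum⟩ : Fin m) := by
    have h1 := hpu (⟨uu q η s b γ, hum⟩ : Fin m) rfl
    rcases lt_trichotomy (σ.symm (⟨q, hq⟩ : Fin m)) (⟨uu q η s b γ, hum⟩ : Fin m) with h2 | h2 | h2
    · have h3 := hdec _ _ h2 (by show uu q η s b γ < q + 1; omega)
      rw [h1, hp2] at h3
      exact absurd h3 (lt_irrefl _)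
    · exact h2
    · have h3 := hdec _ _ h2 (by omega)
      rw [h1, hp2] at h3
      exact absurd h3 (lt_irrefl _)
  have hp4 : ∀ j : Fin m, σ j = (⟨q, hq⟩ : Fin m) → j.val = uu q η s b γ := by
    intro j hj
    have h1 : j = σ.symm (⟨q, hq⟩ : Fin m) := by rw [← hj, Equiv.symm_apply_apply]
    rw [h1, hp3]
  have hlow : ∀ j : Fin m, j.val < q + 1 → (σ j).val < q + 1 := by
    intro j hj
    by_contra hcon
    have h2 := hfix (σ j) (by omega)
    have h3 := σ.injective h2
    rw [h3] at hcon
    exact hcon hj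
  refine ⟨?_, hdec, ?_, ?_⟩
  · intro r hr
    have hrm : r ≤ m := by omega
    have hsum : ∑ k : Fin m with k.val < r, η' k =
        ∑ k ∈ (Finset.univ.filter fun k : Fin m => k.val < r).image σ, zt q η s b γ k := by
      rw [Finset.sum_image fun x _ y _ hxy => σ.injective hxy]
      exact Finset.sum_congr rfl fun k _ => hσ k
    have hcard : ((Finset.univ.filter fun k : Fin m => k.val < r).image σ).card = r := by
      rw [Finset.card_image_of_injective _ σ.injective, P2_card hrm]
    refine ⟨((Finset.univ.filter fun k : Fin m => k.val < r).image σ).erase (⟨q, hq⟩ : Fin m),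
      ?_, ?_⟩
    · intro k hk
      rw [Finset.mem_erase, Finset.mem_image] at hk
      obtain ⟨hk1, j, hj, rfl⟩ := hk
      rw [Finset.mem_filter] at hj
      have h1 := hlow j (by omega)
      have h2 : (σ j).val ≠ q := fun h => hk1 (Fin.ext h)
      omega
    · by_cases hru : r ≤ uu q η s b γ
      · left
        have hnot : (⟨q, hq⟩ : Fin m) ∉
            (Finset.univ.filter fun k : Fin m => k.val < r).image σ := by
          intro hmem
          rw [Finset.mem_image] at hmem
          obtain ⟨j, hj, hj2⟩ := hmem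
          rw [Finset.mem_filter] at hj
          have h1 := hp4 j hj2
          omega
        rw [Finset.erase_eq_of_notMem hnot]
        exact ⟨hru, hcard, hsum⟩
      · right
        have hmem : (⟨q, hq⟩ : Fin m) ∈
            (Finset.univ.filter fun k : Fin m => k.val < r).image σ := by
          rw [Finset.mem_image]
          refine ⟨σ.symm (⟨q, hq⟩ : Fin m), ?_, Equiv.apply_symm_apply _ _⟩
          rw [Finset.mem_filter, hp3]
          exact ⟨Finset.mem_univ _, by show uu q η s b γ < r; omega⟩
        refine ⟨by omega, ?_, ?_⟩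
        · rw [Finset.card_erase_add_one hmem, hcard]
        · rw [hsum, ← Finset.sum_erase_add _ _ hmem, P2_ztq η s b γ (⟨q, hq⟩ : Fin m) rfl]
  · intro k hk
    rw [hσ, hfix k hk]
    unfold zt
    rw [if_neg (by omega), if_neg (by omega)]
    exact tail k (by omega)
  · have h1 : ∑ k, η' k = ∑ k, η k := by
      rw [Finset.sum_congr rfl fun k _ => hσ k, Equiv.sum_comp σ (zt q η s b γ)]
      exact P2_sum hq η s b γ tail supp
    have h2 : ∑ k, al η' k = ∑ k, al η k := by
      unfold al
      rw [Finset.sum_sub_distrib, Finset.sum_sub_distrib, h1]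
    rw [h2, sum0]

end PW
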