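import Pool.Agent.Lib.MP_3b3418_ag.PW.SpecG

/-!
P3, module of the project PV2 (MP_3b3418_ag).
-/

set_option autoImplicit false

namespace PW

open MP3s PV

private theorem P3_perm {m q : ℕ} {σ : Equiv.Perm (Fin m)}
    (h : ∀ k : Fin m, q + 1 ≤ k.val → σ k = k) (k : Fin m) (hk : k.val ≤ q) : (σ k).val ≤ q := by
  by_contra hc
  have h1 := h (σ k) (by omega)
  have h2 := σ.injective h1
  rw [h2] at hc
  exact hc hk

private theorem P3_symm {m q : ℕ} {σ : Equiv.Perm (Fin m)}
    (h : ∀ k : Fin m, q + 1 ≤ k.val → σ k = k) (k : Fin m) (hk : k.val ≤ q) :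
    (σ.symm k).val ≤ q := by
  by_contra hc
  have h1 := h (σ.symm k) (by omega)
  rw [Equiv.apply_symm_apply] at h1
  rw [← h1] at hc
  exact hc hk

theorem tP3 : S_P1 → S_P3 := by
  intro P1 m q η η' s b γ h
  obtain ⟨-, hu, hX, hlt⟩ := P1 m q η η' s b γ h
  obtain ⟨σ, hfix, hη', hdec⟩ := h.srt
  have hq : q < m := h.hq
  have hηd := h.dec
  obtain ⟨u, hu'⟩ : ∃ u, u = uu q η s b γ := ⟨_, rfl⟩
  obtain ⟨X, hX'⟩ : ∃ X : ℤ, X = (m : ℤ) - 1 - nn s b γ := ⟨_, rfl⟩
  obtain ⟨ζ, hζ⟩ : ∃ ζ : Fin m → ℤ, ζ = zt q η s b γ := ⟨_, rfl⟩
  have hζq : ∀ k : Fin m, k.val = q → ζ k = X := by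
    intro k hk
    rw [hζ, hX']
    unfold zt
    rw [if_neg (by omega), if_pos hk]
  have hζl : ∀ k : Fin m, k.val < q → η k - 1 ≤ ζ k := by
    intro k hk
    rw [hζ]
    unfold zt
    rw [if_pos hk]
    omega
  rw [← hu', ← hζ]
  rw [← hu'] at hu hX hlt
  rw [← hX'] at hX hlt
  rw [← hζ] at hη'
  clear hu' hX' hζ h P1
  have hanti : ∀ i j : Fin m, i ≤ j → j.val ≤ q → η' j ≤ η' i := by
    intro i j hij hj
    rcases eq_or_lt_of_le hij with e | e
    · rw [e]
    · exact (hdec i j e (by omega)).le
  have hinj' : ∀ i j : Fin m, i.val ≤ q → j.val ≤ q → η' i = η' j → i = j := by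
    intro i j hi hj e
    rcases lt_trichotomy i j with h1 | h1 | h1
    · exact absurd e (hdec i j h1 (by omega)).ne'
    · exact h1
    · exact absurd e (hdec j i h1 (by omega)).ne
  have hpos : ∀ l : Fin m, η' (σ.symm l) = ζ l := by
    intro l
    rw [hη', Equiv.apply_symm_apply]
  have hinj : ∀ i j : Fin m, i.val ≤ q → j.val ≤ q → ζ i = ζ j → i = j := by
    intro i j hi hj e
    rw [← hpos, ← hpos] at e
    exact σ.symm.injective (hinj' _ _ (P3_symm hfix i hi) (P3_symm hfix j hj) e)
  have hum : u < m := lt_of_le_of_lt hu hq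
  have hpu : σ (⟨u, hum⟩ : Fin m) = ⟨q, hq⟩ := by
    refine hinj _ _ (P3_perm hfix _ hu) le_rfl ?_
    rw [← hη', hX _ rfl, hζq _ rfl]
  refine ⟨?_, ?_, ?_⟩
  · intro h1 z hz
    have hσ : (σ z).val < q := by
      rcases lt_or_eq_of_le (P3_perm hfix z (by omega)) with h2 | h2
      · exact h2
      · exfalso
        have h3 := hζq (σ z) h2
        rw [← hη'] at h3
        have h4 := ((hlt z).1 (by omega)).2
        omega
    refine ⟨σ z, hσ, hη' z, ?_⟩
    unfold inn
    rw [← Fin.card_Iio (σ z)]
    refine Finset.card_le_card_of_injOn (fun l => (l, σ z)) ?_ ?_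
    · intro l hl
      have hl' : l < σ z := by simpa using hl
      have hlq : l.val ≤ q := by
        have h5 : l.val < (σ z).val := hl'
        omega
      have h6 : σ.symm l ≠ z := by
        intro e
        rw [← e, Equiv.apply_symm_apply] at hl'
        exact lt_irrefl _ hl'
      have h7 : z < σ.symm l := by
        rw [Fin.lt_def, hz]
        rcases Nat.eq_zero_or_pos (σ.symm l).val with h8 | h8
        · exact absurd (Fin.ext (by rw [h8, hz])) h6
        · exact h8
      have h9 := hdec z (σ.symm l) h7 (by have := P3_symm hfix l hlq; omega)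
      rw [hpos, hη' z] at h9
      simp only [Finset.coe_filter, Finset.mem_univ, true_and, Set.mem_setOf_eq]
      exact ⟨hl', hσ, h9⟩
    · intro x _ y _ e
      exact (Prod.mk.inj e).1
  · intro h0
    have hζd : ∀ l k : Fin m, l < k → k.val < q → ζ k < ζ l := by
      intro l k hlk hk
      rcases lt_trichotomy (ζ l) (ζ k) with h2 | h2 | h2
      · exfalso
        unfold inn at h0
        rw [Finset.card_eq_zero] at h0
        have h3 : (l, k) ∈ (Finset.univ.filter fun p : Fin m × Fin m =>
            p.1 < p.2 ∧ p.2.val < q ∧ ζ p.1 < ζ p.2) := by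
          rw [Finset.mem_filter]
          exact ⟨Finset.mem_univ _, hlk, hk, h2⟩
        rw [h0] at h3
        exact absurd h3 (Finset.notMem_empty _)
      · exact absurd (hinj l k (by have : l.val < k.val := hlk; omega) (by omega) h2) hlk.ne
      · exact h2
    have key : ∀ (n : ℕ) (r : Fin m), r.val = n → r.val < u → σ r = r := by
      intro n
      induction n using Nat.strong_induction_on with
      | _ n ih =>
        intro r hrn hru
        have hge : r ≤ σ r := by
          by_contra hc
          rw [not_le] at hc
          have hc' : (σ r).val < r.val := hc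
          have h3 := ih (σ r).val (by omega) (σ r) rfl (by omega)
          exact hc.ne (σ.injective h3)
        rcases eq_or_lt_of_le hge with h2 | h2
        · exact h2.symm
        · exfalso
          have h3 := ((hlt r).1 hru).2
          have h4 : (σ r).val ≤ q := P3_perm hfix r (by omega)
          have h5 : (σ r).val < q := by
            rcases lt_or_eq_of_le h4 with h5 | h5
            · exact h5
            · exfalso
              have h6 := hζq (σ r) h5
              rw [← hη'] at h6
              omega
          have h6 := hζd r (σ r) h2 h5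
          rw [← hη', ← hpos] at h6
          have h7 : (σ.symm r).val ≤ q := P3_symm hfix r (by omega)
          have h8 : σ.symm r < r := by
            by_contra hc
            rw [not_lt] at hc
            have := hanti r (σ.symm r) hc h7
            omega
          have h8' : (σ.symm r).val < r.val := h8
          have h9 := ih (σ.symm r).val (by omega) (σ.symm r) rfl (by omega)
          rw [Equiv.apply_symm_apply] at h9
          exact h8.ne h9.symm
    intro r hr
    rw [hη', key r.val r rfl hr]
  · intro r r' hr hrq hrr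
    by_contra hc
    rw [not_le] at hc
    have h1 : (Finset.Iio r).image σ.symm ⊆ (Finset.Iio r).erase ⟨u, hum⟩ := by
      intro p hp
      rw [Finset.mem_image] at hp
      obtain ⟨l, hl, rfl⟩ := hp
      rw [Finset.mem_Iio] at hl
      have hl' : l.val < r.val := hl
      have hη1 : η r' ≤ η l := by
        rcases Nat.lt_or_ge l.val r'.val with h2 | h2
        · exact (hηd l r' h2 (by omega)).le
        · have e : l = r' := Fin.ext (by omega)
          rw [e]
      have h3 := hζl l (by omega)
      have h4 : η' r < η' (σ.symm l) := by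
        rw [hpos]
        omega
      have h5 : (σ.symm l).val ≤ q := P3_symm hfix l (by omega)
      rw [Finset.mem_erase, Finset.mem_Iio]
      constructor
      · intro e
        rw [Equiv.symm_apply_eq, hpu] at e
        rw [e] at hl'
        have : q < r.val := hl'
        omega
      · by_contra hc'
        rw [not_lt] at hc'
        have := hanti r (σ.symm l) hc' h5
        omega
    have h2 := Finset.card_le_card h1
    rw [Finset.card_image_of_injective _ σ.symm.injective, Finset.card_erase_of_mem, Fin.card_Iio] at h2
    · omega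
    · rw [Finset.mem_Iio]
      exact hr

end PW
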