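import Pool.Agent.Lib.MP_3b3418_ag.PW.SpecG

/-!
# PV2 G/PX: from `Pth` to `Pa`
-/

set_option autoImplicit false

namespace PW

open MP3s PV

private theorem PX_supp {m : ℕ} (q : ℕ) (F : Pr m → ℕ) (l : Fin m) (h : q ≤ l.val) :
    co q F l = 0 := by
  refine Finset.sum_eq_zero fun p _ => ?_
  rw [if_neg]
  rintro ⟨h1, h2⟩
  have h3 : p.1.1.val < p.1.2.val := p.2
  rw [h1, h2] at h3
  omega

private theorem PX_one {m : ℕ} {M : Type} [AddCommMonoid M] (q : ℕ) (F : Pr m → M) (l : Fin m)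
    (p0 : Pr m) (h1 : p0.1.1 = l) (h2 : p0.1.2.val = q) :
    (∑ p : Pr m, if p.1.1 = l ∧ p.1.2.val = q then F p else 0) = F p0 := by
  rw [Finset.sum_eq_single p0, if_pos ⟨h1, h2⟩]
  · intro p _ hp
    rw [if_neg]
    rintro ⟨h3, h4⟩
    exact hp (Subtype.ext (Prod.ext (h3.trans h1.symm) (Fin.ext (h4.trans h2.symm))))
  · intro h
    exact absurd (Finset.mem_univ _) h

private theorem PX_co {m : ℕ} (q : ℕ) (F : Pr m → ℕ) (l : Fin m)
    (p0 : Pr m) (h1 : p0.1.1 = l) (h2 : p0.1.2.val = q) : co q F l = F p0 :=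
  PX_one q F l p0 h1 h2

private theorem PX_le {m : ℕ} (q : ℕ) (F : Pr m → ℕ) (hF : ∀ p, F p ≤ 1) (hq : q < m)
    (l : Fin m) : co q F l ≤ 1 := by
  rcases lt_or_ge l.val q with h | h
  · have hl : l < (⟨q, hq⟩ : Fin m) := h
    rw [PX_co q F l ⟨(l, ⟨q, hq⟩), hl⟩ rfl rfl]
    exact hF _
  · rw [PX_supp q F l h]
    exact Nat.zero_le _

private theorem PX_wq {m : ℕ} (X : Pr m → ℤ) (q : ℕ) (l : Fin m) :
    wq X q l = ∑ p : Pr m, if p.1.2.val = q then X p * rt p l else 0 := by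
  unfold wq
  rw [Finset.sum_apply]
  refine Finset.sum_congr rfl fun p _ => ?_
  split_ifs
  · rfl
  · rfl

private theorem PX_rt {m : ℕ} (p : Pr m) (l : Fin m) :
    rt p l = (if l = p.1.1 then 1 else 0) - if l = p.1.2 then 1 else 0 := rfl

private theorem PX_w1 {m : ℕ} (X : Pr m → ℤ) (q : ℕ) (l : Fin m) (p0 : Pr m)
    (h1 : p0.1.1 = l) (h2 : p0.1.2.val = q) : wq X q l = X p0 := by
  rw [PX_wq, ← PX_one q X l p0 h1 h2]
  refine Finset.sum_congr rfl fun p _ => ?_
  by_cases hp : p.1.2.val = q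
  · have h3 : l ≠ p.1.2 := by
      intro h
      have h4 : p0.1.1.val < p0.1.2.val := p0.2
      rw [h1, h2, ← hp, h] at h4
      omega
    rw [if_pos hp, PX_rt, if_neg h3]
    by_cases h5 : p.1.1 = l
    · rw [if_pos h5.symm, if_pos ⟨h5, hp⟩]; ring
    · rw [if_neg (fun h => h5 h.symm), if_neg (fun h => h5 h.1)]; ring
  · rw [if_neg hp, if_neg (fun h => hp h.2)]

private theorem PX_w2 {m : ℕ} (X : Pr m → ℤ) (q : ℕ) (l : Fin m) (h : l.val = q) :
    wq X q l = -∑ p : Pr m, if p.1.2.val = q then X p else 0 := by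
  rw [PX_wq, ← Finset.sum_neg_distrib]
  refine Finset.sum_congr rfl fun p _ => ?_
  by_cases hp : p.1.2.val = q
  · have h3 : l = p.1.2 := Fin.ext (h.trans hp.symm)
    have h4 : l ≠ p.1.1 := by
      intro h5
      have h6 : p.1.1.val < p.1.2.val := p.2
      rw [← h5, ← h3] at h6
      omega
    rw [if_pos hp, if_pos hp, PX_rt, if_pos h3, if_neg h4]; ring
  · rw [if_neg hp, if_neg hp]; rfl

private theorem PX_w3 {m : ℕ} (X : Pr m → ℤ) (q : ℕ) (l : Fin m) (h : q < l.val) :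
    wq X q l = 0 := by
  rw [PX_wq]
  refine Finset.sum_eq_zero fun p _ => ?_
  by_cases hp : p.1.2.val = q
  · have h6 : p.1.1.val < p.1.2.val := p.2
    have h3 : l ≠ p.1.2 := by
      intro h5; rw [h5] at h; omega
    have h4 : l ≠ p.1.1 := by
      intro h5; rw [h5] at h; omega
    rw [if_pos hp, PX_rt, if_neg h3, if_neg h4]; ring
  · rw [if_neg hp]

private theorem PX_sum {m : ℕ} (q : ℕ) (F : Pr m → ℕ) :
    ∑ k, (co q F k : ℤ) = ∑ p : Pr m, if p.1.2.val = q then (F p : ℤ) else 0 := by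
  have h1 : ∀ k : Fin m, (co q F k : ℤ) =
      ∑ p : Pr m, if p.1.1 = k ∧ p.1.2.val = q then (F p : ℤ) else 0 := by
    intro k
    unfold co
    rw [Nat.cast_sum]
    refine Finset.sum_congr rfl fun p _ => ?_
    split_ifs
    · rfl
    · rfl
  rw [Finset.sum_congr rfl fun k _ => h1 k, Finset.sum_comm]
  refine Finset.sum_congr rfl fun p _ => ?_
  rw [Finset.sum_eq_single p.1.1]
  · by_cases hp : p.1.2.val = q
    · rw [if_pos hp, if_pos ⟨rfl, hp⟩]
    · rw [if_neg hp, if_neg (fun h => hp h.2)]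
  · intro k _ hk
    rw [if_neg (fun h => hk h.1.symm)]
  · intro h
    exact absurd (Finset.mem_univ _) h

private theorem PX_cnt {m : ℕ} (q : ℕ) (hq : q < m) :
    ∑ p : Pr m, (if p.1.2.val = q then (1 : ℤ) else 0) = q := by
  have h1 := PX_sum (m := m) q (fun _ => 1)
  rw [Nat.cast_one] at h1
  rw [← h1]
  have h2 : ∀ k : Fin m, ((co q (fun _ => 1) k : ℕ) : ℤ) = if k.val < q then (1 : ℤ) else 0 := by
    intro k
    by_cases h : k.val < q
    · have hl : k < (⟨q, hq⟩ : Fin m) := h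
      rw [if_pos h, PX_co q _ k ⟨(k, ⟨q, hq⟩), hl⟩ rfl rfl]
      rfl
    · rw [if_neg h, PX_supp q _ k (not_lt.1 h)]
      rfl
  rw [Finset.sum_congr rfl fun k _ => h2 k,
    Fin.sum_univ_eq_sum_range (fun k => if k < q then (1 : ℤ) else 0) m, Finset.sum_boole]
  have h3 : (Finset.range m).filter (fun k => k < q) = Finset.range q := by
    ext k
    simp only [Finset.mem_filter, Finset.mem_range]
    omega
  rw [h3, Finset.card_range]

private theorem PX_zt {m : ℕ} (X : Pr m → ℤ) (A C β : Pr m → ℕ)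
    (hX : ∀ p, X p = (A p : ℤ) - C p - β p) (hA : ∀ p, A p ≤ 1) (q : ℕ) (hq : q < m)
    (η : Fin m → ℤ) (ht : ∀ k : Fin m, q ≤ k.val → η k = del m k) :
    η - wq X q = zt q η (co q fun p => 1 - A p) (co q C) (co q β) := by
  funext l
  rw [Pi.sub_apply]
  unfold zt
  rcases lt_trichotomy l.val q with h | h | h
  · have hl : l < (⟨q, hq⟩ : Fin m) := h
    rw [if_pos h, PX_w1 X q l ⟨(l, ⟨q, hq⟩), hl⟩ rfl rfl, PX_co q C l ⟨(l, ⟨q, hq⟩), hl⟩ rfl rfl,
      PX_co q β l ⟨(l, ⟨q, hq⟩), hl⟩ rfl rfl,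
      PX_co q (fun p => 1 - A p) l ⟨(l, ⟨q, hq⟩), hl⟩ rfl rfl, hX, Nat.cast_sub (hA _)]
    push_cast
    ring
  · rw [if_neg (by omega), if_pos h, PX_w2 X q l h, ht l (by omega)]
    have h1 : nn (co q fun p => 1 - A p) (co q C) (co q β) =
        q - ∑ p : Pr m, if p.1.2.val = q then X p else 0 := by
      unfold nn
      rw [Finset.sum_add_distrib, Finset.sum_add_distrib, PX_sum, PX_sum, PX_sum, ← PX_cnt q hq,
        ← Finset.sum_add_distrib, ← Finset.sum_add_distrib, ← Finset.sum_sub_distrib]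
      refine Finset.sum_congr rfl fun p _ => ?_
      by_cases hp : p.1.2.val = q
      · simp only [if_pos hp]
        rw [hX, Nat.cast_sub (hA _)]
        push_cast
        ring
      · simp only [if_neg hp]
        rfl
    rw [h1]
    unfold del
    rw [h]
    ring
  · rw [if_neg (by omega), if_neg (by omega), PX_w3 X q l h]
    ring

/-- **PX.** -/
theorem tPX : S_P2 → S_PX := by
  intro P2 m X A C β hX hA hC q η V hP
  have key : Pa A C β q η V ∧ (∀ i j : Fin m, i < j → j.val < q → η j < η i) ∧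
      (∀ k : Fin m, q ≤ k.val → η k = del m k) ∧ ∑ k, al η k = 0 := by
    induction hP with
    | zero =>
      refine ⟨Pa.zero, fun i j _ h => absurd h (Nat.not_lt_zero _), fun k _ => rfl, ?_⟩
      refine Finset.sum_eq_zero fun k _ => ?_
      unfold al
      exact sub_self _
    | step q η η' V hP hq hs ih =>
      obtain ⟨h1, h2, h3, h4⟩ := ih
      have hz := PX_zt X A C β hX hA q hq η h3
      rw [hz] at hs
      have hS : Stp m q η η' (co q fun p => 1 - A p) (co q C) (co q β) :=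
        { hq := hq
          dec := h2
          tail := h3
          sum0 := h4
          s1 := PX_le q _ (fun p => Nat.sub_le _ _) hq
          b1 := PX_le q _ hC hq
          supp := fun l hl => ⟨PX_supp q _ l hl, PX_supp q _ l hl, PX_supp q _ l hl⟩
          srt := hs }
      have h5 := P2 m q η η' _ _ _ hS
      rw [hz]
      exact ⟨Pa.step q η η' V h1 hS, h5.2.1, h5.2.2.1, h5.2.2.2⟩
  exact key.1

end PW
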