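import Pool.Agent.Lib.MP_3b3418_ag.PW.SpecG

/-! # Project PV2, module Q2: states at the stages `0`, `1`, `2` -/

set_option autoImplicit false

namespace PW

open MP3s PV

private theorem Q2_dd0 {m : ℕ} (A C β : Pr m → ℕ) : DD A C β 0 0 = 0 := by
  unfold DD cs
  simp

private theorem Q2_one (h3 : S_F3) (hAc : S_Ac) {m : ℕ} {A C β : Pr m → ℕ} (hA1 : ∀ p, A p ≤ 1)
    (hC1 : ∀ p, C p ≤ 1) {η : Fin m → ℤ} {V : ℕ} (h : Pa A C β 1 η V) :
    (∀ k, al η k = 0) ∧ DD A C β 1 V = 0 := by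
  cases h with
  | step q η0 _ V0 h0 hs =>
    cases h0
    have hu : uu 0 (del m) (co 0 fun p => 1 - A p) (co 0 C) (co 0 β) = 0 := by
      unfold uu
      simp
    obtain ⟨hn, hal⟩ := (h3 m 0 (del m) η _ _ _ hs ⟨0, hs.hq⟩ rfl).1 hu
    refine ⟨hal, ?_⟩
    have hD := (hAc m A C β hA1 hC1).1 0 (del m) η 0 hs
    have hγ : ∑ k, ((co 0 β k : ℕ) : ℤ) = 0 :=
      Finset.sum_eq_zero fun k _ => by rw [(hs.supp k (Nat.zero_le _)).2.2]; rfl
    have hi : inn 0 (zt 0 (del m) (co 0 fun p => 1 - A p) (co 0 C) (co 0 β)) = 0 := by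
      unfold inn
      simp
    have hd : dD 0 (del m) (co 0 fun p => 1 - A p) (co 0 C) (co 0 β) = 0 := by
      unfold dD
      rw [hi, hγ, hu, hn]
      simp
    rw [Q2_dd0, hd] at hD
    exact hD

private theorem Q2_step (h1 : S_P1) (h2 : S_P2) (ht : S_TS) (h3 : S_F3) {m : ℕ}
    {η η' : Fin m → ℤ} {s b γ : Fin m → ℕ} (hs : Stp m 1 η η' s b γ) (z z1 : Fin m)
    (hz : z.val = 0) (hz1 : z1.val = 1) :
    0 ≤ al η' z ∧ al η' z1 = -al η' z ∧ (∀ k, al η' k ≤ al η' z) ∧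
      al η' z ≤ dD 1 η s b γ ∧ 2 * al η' z - 1 ≤ dD 1 η s b γ ∧ 0 ≤ dD 1 η s b γ := by
  obtain ⟨-, hu1, hX, -⟩ := h1 m 1 η η' s b γ hs
  obtain ⟨-, hdec, htail, hsum⟩ := h2 m 1 η η' s b γ hs
  obtain ⟨hz0, hmax, -⟩ := ((ht m 2 η' hdec).2.2 htail hsum).1 z hz
  have hγ0 : (0 : ℤ) ≤ ∑ k, (γ k : ℤ) := Finset.sum_nonneg fun k _ => Int.natCast_nonneg _
  have hinn : (0 : ℤ) ≤ (inn 1 (zt 1 η s b γ) : ℤ) := Int.natCast_nonneg _
  have hdD : dD 1 η s b γ =
      inn 1 (zt 1 η s b γ) + (∑ k, (γ k : ℤ)) - (uu 1 η s b γ - nn s b γ) := rfl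
  rcases Nat.eq_zero_or_pos (uu 1 η s b γ) with hu | hu
  · obtain ⟨hn, hal⟩ := (h3 m 1 η η' s b γ hs z hz).1 hu
    have hd0 : 0 ≤ dD 1 η s b γ := by
      rw [hdD, hu, hn]
      push_cast
      omega
    rw [hal z, hal z1]
    refine ⟨le_refl _, by simp, fun k => by rw [hal k], hd0, by omega, hd0⟩
  · have hu' : uu 1 η s b γ = 1 := le_antisymm hu1 hu
    have hz1v : al η' z1 = 1 - nn s b γ := by
      unfold al del
      rw [hX z1 (by rw [hz1, hu']), hz1]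
      push_cast
      ring
    have hne : z ≠ z1 := by
      intro h
      rw [h] at hz
      omega
    have hsum2 : ∑ k, al η' k = al η' z + al η' z1 := by
      refine Fintype.sum_eq_add z z1 hne fun k hk => ?_
      have hk0 : k.val ≠ 0 := fun h => hk.1 (Fin.ext (by rw [h, hz]))
      have hk1 : k.val ≠ 1 := fun h => hk.2 (Fin.ext (by rw [h, hz1]))
      unfold al
      rw [htail k (by omega)]
      simp
    have hneg : al η' z1 = -al η' z := by
      rw [hsum] at hsum2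
      omega
    have hsup : ∀ k : Fin m, k ≠ z → s k = 0 ∧ b k = 0 ∧ γ k = 0 := fun k hk =>
      hs.supp k (by
        have hk0 : k.val ≠ 0 := fun h => hk (Fin.ext (by rw [h, hz]))
        omega)
    have hS : ∑ k, (s k : ℤ) = s z := Fintype.sum_eq_single z fun k hk => by
      rw [(hsup k hk).1]; rfl
    have hB : ∑ k, (b k : ℤ) = b z := Fintype.sum_eq_single z fun k hk => by
      rw [(hsup k hk).2.1]; rfl
    have hN : nn s b γ = (s z : ℤ) + b z + ∑ k, (γ k : ℤ) := by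
      unfold nn
      rw [Finset.sum_add_distrib, Finset.sum_add_distrib, hS, hB]
    have hs1 := hs.s1 z
    have hb1 := hs.b1 z
    have hd : dD 1 η s b γ =
        inn 1 (zt 1 η s b γ) + (∑ k, (γ k : ℤ)) - (1 - nn s b γ) := by
      rw [hdD, hu']
      push_cast
      ring
    refine ⟨hz0, hneg, hmax, ?_, ?_, ?_⟩
    · rw [hd]
      omega
    · rw [hd]
      omega
    · rw [hd]
      omega

theorem tQ2 : S_P1 → S_P2 → S_TS → S_F3 → S_Ac → S_Q2 := by
  intro h1 h2 ht h3 hAc m A C β hA1 hC1 q η V h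
  refine ⟨fun hq => ?_, fun hq z z1 hz hz1 => ?_⟩
  · rcases Nat.le_one_iff_eq_zero_or_eq_one.mp hq with h0 | h0
    · subst h0
      cases h
      refine ⟨fun k => ?_, Q2_dd0 A C β⟩
      unfold al
      simp
    · subst h0
      exact Q2_one h3 hAc hA1 hC1 h
  · subst hq
    cases h with
    | step q η0 _ V0 h0 hs =>
      obtain ⟨-, hD0⟩ := Q2_one h3 hAc hA1 hC1 h0
      have hD := (hAc m A C β hA1 hC1).1 1 η0 η V0 hs
      rw [hD0, zero_add] at hD
      have hD' : DD A C β 2 (V0 + inn (1 + 1) (zt 1 η0 (co 1 fun p => 1 - A p) (co 1 C) (co 1 β))) =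
          dD 1 η0 (co 1 fun p => 1 - A p) (co 1 C) (co 1 β) := hD
      rw [hD']
      exact Q2_step h1 h2 ht h3 hs z z1 hz hz1

end PW
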