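import Pool.Agent.Lib.MP_3b3418_ag.PW.SpecG

/-! Project PV2, part G, module Q3: the states at stage 3. -/

set_option autoImplicit false

namespace PW

open MP3s PV

private theorem Q3_sum3 {m : ℕ} (f : Fin m → ℤ) (z z1 z2 : Fin m) (h0 : z.val = 0)
    (h1 : z1.val = 1) (h2 : z2.val = 2) (hf : ∀ k : Fin m, 3 ≤ k.val → f k = 0) :
    ∑ k, f k = f z + f z1 + f z2 := by
  have n01 : z ≠ z1 := fun h => by rw [h, h1] at h0; omega
  have n02 : z ≠ z2 := fun h => by rw [h, h2] at h0; omega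
  have n12 : z1 ≠ z2 := fun h => by rw [h, h2] at h1; omega
  have h3 : ∑ k ∈ ({z, z1, z2} : Finset (Fin m)), f k = ∑ k, f k := by
    apply Finset.sum_subset (Finset.subset_univ _)
    intro k _ hk
    apply hf
    by_contra hlt
    apply hk
    rw [Finset.mem_insert, Finset.mem_insert, Finset.mem_singleton, Fin.ext_iff, Fin.ext_iff,
      Fin.ext_iff]
    omega
  rw [← h3, Finset.sum_insert, Finset.sum_pair n12]
  · ring
  · rw [Finset.mem_insert, Finset.mem_singleton]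
    rintro (h | h)
    · exact n01 h
    · exact n02 h

private theorem Q3_sum2 {m : ℕ} (f : Fin m → ℤ) (z z1 : Fin m) (h0 : z.val = 0)
    (h1 : z1.val = 1) : ∑ k : Fin m with k.val < 2, f k = f z + f z1 := by
  have n01 : z ≠ z1 := fun h => by rw [h, h1] at h0; omega
  have h3 : (Finset.univ.filter fun k : Fin m => k.val < 2) = {z, z1} := by
    ext k
    rw [Finset.mem_filter, Finset.mem_insert, Finset.mem_singleton, Fin.ext_iff, Fin.ext_iff]
    constructor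
    · rintro ⟨-, h⟩
      omega
    · intro h
      exact ⟨Finset.mem_univ _, by omega⟩
  rw [h3, Finset.sum_pair n01]

private theorem Q3_core (hP1 : S_P1) (hP2 : S_P2) (hTS : S_TS) (hF1 : S_F1) (hF3 : S_F3)
    (m : ℕ) (η₀ η : Fin m → ℤ) (s b γ : Fin m → ℕ) (hst : Stp m 2 η₀ η s b γ) (D : ℤ)
    (hq2 : ∀ z z1 : Fin m, z.val = 0 → z1.val = 1 → 0 ≤ al η₀ z ∧ al η₀ z1 = -al η₀ z ∧
      (∀ k, al η₀ k ≤ al η₀ z) ∧ al η₀ z ≤ D ∧ 2 * al η₀ z - 1 ≤ D ∧ 0 ≤ D) :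
    (∀ k, al η k ≤ D + dD 2 η₀ s b γ) ∧
    ∀ z z1 : Fin m, z.val = 0 → z1.val = 1 → 1 ≤ al η z1 →
      al η z + al η z1 ≤ D + dD 2 η₀ s b γ := by
  have hm : 2 < m := hst.hq
  obtain ⟨z, hz⟩ : ∃ z : Fin m, z.val = 0 := ⟨⟨0, by omega⟩, rfl⟩
  obtain ⟨z1, hz1⟩ : ∃ z : Fin m, z.val = 1 := ⟨⟨1, by omega⟩, rfl⟩
  obtain ⟨z2, hz2⟩ : ∃ z : Fin m, z.val = 2 := ⟨⟨2, by omega⟩, rfl⟩
  obtain ⟨x0, x1, -, xD, x2D, D0⟩ := hq2 z z1 hz hz1
  obtain ⟨-, p1u, p1X, -⟩ := hP1 m 2 η₀ η s b γ hst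
  obtain ⟨-, p2d, p2t, p2s⟩ := hP2 m 2 η₀ η s b γ hst
  obtain ⟨-, -, ts⟩ := hTS m 3 η p2d
  obtain ⟨ts, -, -⟩ := ts p2t p2s
  obtain ⟨t0, tmax, tz⟩ := ts z hz
  have hf1 := hF1 m 2 η₀ η s b γ hst
  obtain ⟨f3a, f3b, f3c⟩ := hF3 m 2 η₀ η s b γ hst z hz
  have hdD : dD 2 η₀ s b γ = inn 2 (zt 2 η₀ s b γ) + (∑ k, (γ k : ℤ)) -
      (uu 2 η₀ s b γ - nn s b γ) := rfl
  have hinv : (0 : ℤ) ≤ inn 2 (zt 2 η₀ s b γ) := Int.natCast_nonneg _
  have hc0 : (0 : ℤ) ≤ ∑ k, (γ k : ℤ) := Finset.sum_nonneg fun k _ => Int.natCast_nonneg _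
  have hck : ∀ k, (γ k : ℤ) ≤ ∑ k, (γ k : ℤ) := fun k =>
    Finset.single_le_sum (f := fun k => (γ k : ℤ)) (fun k _ => Int.natCast_nonneg _)
      (Finset.mem_univ k)
  have hN0 : 0 ≤ nn s b γ := Finset.sum_nonneg fun k _ => by positivity
  have hNk : ∀ k, (s k : ℤ) + b k + γ k ≤ nn s b γ := fun k =>
    Finset.single_le_sum (f := fun k => (s k : ℤ) + b k + γ k) (fun k _ => by positivity)
      (Finset.mem_univ k)
  have hX : ∀ k : Fin m, k.val = uu 2 η₀ s b γ → al η k = k.val - nn s b γ := by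
    intro k hk
    unfold al del
    rw [p1X k hk]
    ring
  set u : ℕ := uu 2 η₀ s b γ with hu
  set N : ℤ := nn s b γ with hN
  set c : ℤ := ∑ k, (γ k : ℤ) with hc
  set inv : ℕ := inn 2 (zt 2 η₀ s b γ) with hinv'
  set E : ℤ := dD 2 η₀ s b γ with hE
  set x : ℤ := al η₀ z with hx
  have hsum3 : al η z + al η z1 + al η z2 = 0 := by
    rw [← Q3_sum3 (al η) z z1 z2 hz hz1 hz2 (fun k hk => ?_)]
    · exact p2s
    · unfold al
      rw [p2t k hk]
      ring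
  have hcases : u = 0 ∨ u = 1 ∨ u = 2 := by omega
  -- the first claim at `z`
  have hfirst : al η z ≤ D + E := by
    rcases Nat.eq_zero_or_pos u with h0 | h0
    · obtain ⟨a1, a2⟩ := f3a h0
      rw [a2 z, hdD, h0, a1]
      push_cast
      linarith
    · obtain ⟨k, k1, k2, k3⟩ := f3b h0
      have ks : (s k : ℤ) ≤ 1 := by exact_mod_cast hst.s1 k
      have kb : (b k : ℤ) ≤ 1 := by exact_mod_cast hst.b1 k
      have kc := hck k
      have k3' : (k.val : ℤ) ≤ inv := by exact_mod_cast k3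
      have k0 : (0 : ℤ) ≤ (k.val : ℤ) := Int.natCast_nonneg _
      rcases lt_trichotomy (u : ℤ) N with h1 | h1 | h1
      · rw [hdD]
        linarith
      · by_contra hcon
        rw [not_le] at hcon
        obtain ⟨-, -, -, -, a5⟩ := f3c h0 h1 (by linarith)
        have := a5 z1 hz1
        rw [x1] at this
        linarith
      · rcases hcases with h2 | h2 | h2
        · omega
        · have hN' : N = 0 := by
            rw [h2] at h1
            push_cast at h1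
            omega
          have kN := hNk k
          rw [hN'] at kN
          rw [hdD, h2, hN']
          push_cast
          linarith
        · rw [h2, Q3_sum2 (al η₀) z z1 hz hz1, x1] at hf1
          push_cast at hf1
          rw [h2] at h1
          push_cast at h1
          linarith
  refine ⟨fun k => (tmax k).trans hfirst, ?_⟩
  intro w w1 hw hw1 hpos
  obtain rfl : w = z := Fin.ext (hw.trans hz.symm)
  obtain rfl : w1 = z1 := Fin.ext (hw1.trans hz1.symm)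
  rcases hcases with h2 | h2 | h2
  · have := (f3a h2).2 w1
    linarith
  · have h3 := hX w1 (by rw [hw1, h2])
    rw [hw1] at h3
    push_cast at h3
    have hN' : N = 0 := by omega
    obtain ⟨k, k1, k2, k3⟩ := f3b (by omega)
    have kN := hNk k
    have k0 : (0 : ℤ) ≤ (k.val : ℤ) := Int.natCast_nonneg _
    have h4 := tmax w1
    rw [hN'] at kN h3
    rw [hdD, h2, hN']
    push_cast
    linarith
  · have h3 := hX z2 (by rw [hz2, h2])
    rw [hz2] at h3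
    push_cast at h3
    rw [hdD, h2]
    push_cast
    linarith

theorem tQ3 : S_P1 → S_P2 → S_TS → S_F1 → S_F3 → S_Ac → S_Q2 → S_Q3 := by
  intro hP1 hP2 hTS hF1 hF3 hAc hQ2 m A C β hA hC η V hPa
  obtain ⟨η₀, V₀, h0, hst, hV⟩ : ∃ (η₀ : Fin m → ℤ) (V₀ : ℕ), Pa A C β 2 η₀ V₀ ∧
      Stp m 2 η₀ η (co 2 fun p => 1 - A p) (co 2 C) (co 2 β) ∧
      V = V₀ + inn 3 (zt 2 η₀ (co 2 fun p => 1 - A p) (co 2 C) (co 2 β)) := by
    generalize h3 : 3 = n at hPa
    cases hPa with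
    | zero => omega
    | step q η₀ _ V₀ h0 hst =>
      obtain rfl : q = 2 := by omega
      exact ⟨η₀, V₀, h0, hst, rfl⟩
  have hD : DD A C β 3 V = DD A C β 2 V₀ +
      dD 2 η₀ (co 2 fun p => 1 - A p) (co 2 C) (co 2 β) := by
    rw [hV]
    exact (hAc m A C β hA hC).1 2 η₀ η V₀ hst
  rw [hD]
  exact Q3_core hP1 hP2 hTS hF1 hF3 m η₀ η _ _ _ hst _
    ((hQ2 m A C β hA hC 2 η₀ V₀ h0).2 rfl)

end PW
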