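import Pool.Agent.Lib.MP_3b3418_ag.PW.SpecG

/-!
# Project PV2, part G: top sums of strictly decreasing integer sequences (module TS)
-/

set_option autoImplicit false

namespace PW

open MP3s PV

private theorem TS_gap {m q : ℕ} {η : Fin m → ℤ} (dec : ∀ i j : Fin m, i < j → j.val < q → η j < η i) :
    ∀ (n : ℕ) (i j : Fin m), i.val + n = j.val → j.val < q → η j + n ≤ η i := by
  intro n
  induction n with
  | zero =>
    intro i j h _
    have e : i = j := Fin.ext (by omega)
    rw [e]
    simp
  | succ n ih =>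
    intro i j h hj
    have hlt : i.val + n < m := by have := j.2; omega
    have h1 := ih i ⟨i.val + n, hlt⟩ rfl (by show i.val + n < q; omega)
    have h2 := dec ⟨i.val + n, hlt⟩ j (by
      rw [Fin.lt_def]
      show i.val + n < j.val
      omega) hj
    push_cast
    linarith

private theorem TS_two {m q : ℕ} {η : Fin m → ℤ} (dec : ∀ i j : Fin m, i < j → j.val < q → η j < η i)
    (i j : Fin m) (hij : i ≤ j) (hj : j.val < q) :
    η j + (j.val - i.val) ≤ η i ∧ al η j ≤ al η i := by
  have hij' : i.val ≤ j.val := hij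
  have h1 := TS_gap dec (j.val - i.val) i j (by omega) hj
  rw [Nat.cast_sub hij'] at h1
  refine ⟨h1, ?_⟩
  unfold al del
  linarith

private theorem TS_succ {m : ℕ} (f : Fin m → ℤ) (c : ℕ) (hc : c < m) :
    ∑ k : Fin m with k.val < c + 1, f k = (∑ k : Fin m with k.val < c, f k) + f ⟨c, hc⟩ := by
  have e : (Finset.univ.filter fun k : Fin m => k.val < c + 1) =
      insert (⟨c, hc⟩ : Fin m) (Finset.univ.filter fun k : Fin m => k.val < c) := by
    ext k
    rw [Finset.mem_insert, Finset.mem_filter, Finset.mem_filter, Fin.ext_iff]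
    constructor
    · rintro ⟨_, h⟩
      rcases Nat.lt_or_ge k.val c with h1 | h1
      · exact Or.inr ⟨Finset.mem_univ _, h1⟩
      · left
        show k.val = c
        omega
    · rintro (h | ⟨_, h⟩)
      · refine ⟨Finset.mem_univ _, ?_⟩
        have h' : k.val = c := h
        omega
      · exact ⟨Finset.mem_univ _, by omega⟩
  rw [e, Finset.sum_insert (by
    rw [Finset.mem_filter]
    rintro ⟨_, h⟩
    exact lt_irrefl c h), add_comm]

private theorem TS_top {m q : ℕ} {η : Fin m → ℤ} (dec : ∀ i j : Fin m, i < j → j.val < q → η j < η i)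
    (R : Finset (Fin m)) : (∀ k ∈ R, k.val < q) →
      ∑ k ∈ R, η k ≤ ∑ k : Fin m with k.val < R.card, η k := by
  induction R using Finset.induction_on_max with
  | empty => intro _; simp
  | insert a s hs ih =>
    intro hR
    have hna : a ∉ s := fun h => lt_irrefl a (hs a h)
    have hcard : s.card ≤ a.val := by
      have h1 : s ⊆ Finset.Iio a := fun x hx => Finset.mem_Iio.2 (hs x hx)
      have h2 := Finset.card_le_card h1
      rwa [Fin.card_Iio] at h2
    have hlt : s.card < m := lt_of_le_of_lt hcard a.2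
    have haq : a.val < q := hR a (Finset.mem_insert_self a s)
    have h3 := (TS_two dec ⟨s.card, hlt⟩ a (by rw [Fin.le_def]; exact hcard) haq).1
    have h4 := ih fun k hk => hR k (Finset.mem_insert_of_mem hk)
    rw [Finset.sum_insert hna, Finset.card_insert_of_notMem hna, TS_succ η s.card hlt]
    have h5 : ((s.card : ℕ) : ℤ) ≤ (a.val : ℤ) := by exact_mod_cast hcard
    have h6 : η a + ((a.val : ℤ) - ((s.card : ℕ) : ℤ)) ≤ η ⟨s.card, hlt⟩ := h3
    linarith

theorem tTS : S_TS := by
  intro m q η dec
  refine ⟨TS_top dec, TS_two dec, fun tail sum0 => ?_⟩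
  have htail : ∀ k : Fin m, q ≤ k.val → al η k = 0 := by
    intro k hk
    unfold al
    rw [tail k hk, sub_self]
  have hall : ∀ z : Fin m, z.val = 0 → al η z ≤ 0 → ∀ k, al η k = 0 := by
    intro z hz h0
    have hle : ∀ k ∈ (Finset.univ : Finset (Fin m)), al η k ≤ 0 := by
      intro k _
      rcases Nat.lt_or_ge k.val q with hk | hk
      · exact (TS_two dec z k (by rw [Fin.le_def, hz]; exact Nat.zero_le _) hk).2.trans h0
      · exact (htail k hk).le
    intro k
    exact (Finset.sum_eq_zero_iff_of_nonpos hle).1 sum0 k (Finset.mem_univ k)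
  have hnn : ∀ z : Fin m, z.val = 0 → 0 ≤ al η z := by
    intro z hz
    by_contra hn
    push Not at hn
    have := hall z hz hn.le z
    omega
  refine ⟨fun z hz => ⟨hnn z hz, fun k => ?_, hall z hz⟩, fun r => ?_, ?_⟩
  · rcases Nat.lt_or_ge k.val q with hk | hk
    · exact (TS_two dec z k (by rw [Fin.le_def, hz]; exact Nat.zero_le _) hk).2
    · rw [htail k hk]
      exact hnn z hz
  · unfold pp
    calc ∑ k : Fin m with k.val < r, al η k ≤ ∑ k : Fin m with k.val < r, max (al η k) 0 :=
          Finset.sum_le_sum fun k _ => le_max_left _ _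
      _ ≤ ∑ k, max (al η k) 0 :=
          Finset.sum_le_sum_of_subset_of_nonneg (Finset.filter_subset _ _) fun k _ _ => le_max_right _ _
  · have hex : ∃ r : ℕ, ∀ k : Fin m, r ≤ k.val → al η k ≤ 0 := ⟨q, fun k hk => (htail k hk).le⟩
    classical
    obtain ⟨r, hr, hmin⟩ : ∃ r : ℕ, (∀ k : Fin m, r ≤ k.val → al η k ≤ 0) ∧
        ∀ r' : ℕ, (∀ k : Fin m, r' ≤ k.val → al η k ≤ 0) → r ≤ r' :=
      ⟨Nat.find hex, Nat.find_spec hex, fun r' h => Nat.find_min' hex h⟩
    refine ⟨r, hmin q fun k hk => (htail k hk).le, ?_⟩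
    unfold pp
    rw [Finset.sum_filter]
    refine Finset.sum_congr rfl fun k _ => ?_
    by_cases hk : k.val < r
    · rw [if_pos hk]
      apply max_eq_left
      have hnot : ¬ ∀ k : Fin m, r - 1 ≤ k.val → al η k ≤ 0 := by
        intro h
        have := hmin (r - 1) h
        omega
      push Not at hnot
      obtain ⟨k0, h1, h2⟩ := hnot
      have h3 : k0.val < q := by
        by_contra hn
        rw [htail k0 (by omega)] at h2
        exact lt_irrefl 0 h2
      have h4 := (TS_two dec k k0 (by rw [Fin.le_def]; omega) h3).2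
      linarith
    · rw [if_neg hk]
      exact max_eq_right (hr k (by omega))

end PW
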