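import Pool.Agent.Lib.MP_3b3418_ag.PW.SpecG

/-!
# Project PV2, F2: growth of the positive part
-/

set_option autoImplicit false

namespace PW

open MP3s PV

private theorem F2_zt {m q : ℕ} (η : Fin m → ℤ) (s b γ : Fin m → ℕ) (R : Finset (Fin m))
    (hR : ∀ k ∈ R, k.val < q) :
    ∑ k ∈ R, zt q η s b γ k = (∑ k ∈ R, η k) + (∑ k ∈ R, (s k : ℤ)) + (∑ k ∈ R, (b k : ℤ)) +
      (∑ k ∈ R, (γ k : ℤ)) - R.card := by
  have h1 : ∑ k ∈ R, zt q η s b γ k = ∑ k ∈ R, (η k + s k + b k + γ k - 1) := by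
    refine Finset.sum_congr rfl fun k hk => ?_
    unfold zt
    rw [if_pos (hR k hk)]
  rw [h1, Finset.sum_sub_distrib, Finset.sum_add_distrib, Finset.sum_add_distrib,
    Finset.sum_add_distrib]
  simp

private theorem F2_succ {m : ℕ} (t : ℕ) (ht : t < m) (f : Fin m → ℤ) :
    ∑ k : Fin m with k.val < t + 1, f k = (∑ k : Fin m with k.val < t, f k) + f ⟨t, ht⟩ := by
  have h1 : (Finset.univ.filter fun k : Fin m => k.val < t + 1) =
      insert ⟨t, ht⟩ (Finset.univ.filter fun k : Fin m => k.val < t) := by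
    ext k
    simp only [Finset.mem_filter, Finset.mem_univ, true_and, Finset.mem_insert, Fin.ext_iff]
    omega
  rw [h1, Finset.sum_insert (by simp), add_comm]

private theorem F2_le {m : ℕ} (R : Finset (Fin m)) (f : Fin m → ℕ) :
    ∑ k ∈ R, (f k : ℤ) ≤ ∑ k, (f k : ℤ) :=
  Finset.sum_le_sum_of_subset_of_nonneg (Finset.subset_univ R) fun _ _ _ => by positivity

private theorem F2_card {m : ℕ} (R : Finset (Fin m)) (f : Fin m → ℕ) (hf : ∀ k, f k ≤ 1) :
    ∑ k ∈ R, (f k : ℤ) ≤ R.card := by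
  have h := Finset.sum_le_card_nsmul R (fun k => (f k : ℤ)) 1 fun k _ => by
    exact_mod_cast hf k
  simpa using h

private theorem F2_nonneg {m : ℕ} (f : Fin m → ℕ) : 0 ≤ ∑ k, (f k : ℤ) :=
  Finset.sum_nonneg fun _ _ => by positivity

theorem tF2 (_h1 : S_P1) (h2 : S_P2) (h3 : S_TS) : S_F2 := by
  intro m q η η' s b γ W
  obtain ⟨p1, p2, p3, p4⟩ := h2 m q η η' s b γ W
  obtain ⟨t1, _, t3⟩ := h3 m q η W.dec
  obtain ⟨_, t4, _⟩ := t3 W.tail W.sum0
  obtain ⟨_, _, t3'⟩ := h3 m (q + 1) η' p2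
  obtain ⟨_, _, r, hr, hpp⟩ := t3' p3 p4
  have hal : pp η' = (∑ k : Fin m with k.val < r, η' k) - ∑ k : Fin m with k.val < r, del m k := by
    rw [hpp, ← Finset.sum_sub_distrib]
    rfl
  obtain ⟨R, hR, hcase⟩ := p1 r hr
  have hz := F2_zt η s b γ R hR
  have hη := t1 R hR
  have hpos := t4 R.card
  have halη : ∑ k : Fin m with k.val < R.card, al η k =
      (∑ k : Fin m with k.val < R.card, η k) - ∑ k : Fin m with k.val < R.card, del m k := by
    rw [← Finset.sum_sub_distrib]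
    rfl
  have s1 := F2_card R s W.s1
  have b1 := F2_card R b W.b1
  have sl := F2_le R s
  have bl := F2_le R b
  have gl := F2_le R γ
  have s0 := F2_nonneg s
  have b0 := F2_nonneg b
  have g0 := F2_nonneg γ
  have hN : nn s b γ = (∑ k, (s k : ℤ)) + (∑ k, (b k : ℤ)) + ∑ k, (γ k : ℤ) := by
    unfold nn
    rw [Finset.sum_add_distrib, Finset.sum_add_distrib]
  rcases hcase with ⟨_, hc, hsum⟩ | ⟨_, hc, hsum⟩
  · rw [hsum, hz] at hal
    rw [← hc] at hal
    constructor <;> linarith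
  · have hq := W.hq
    have hcm : R.card < m := by omega
    rw [hsum, hz, ← hc, F2_succ R.card hcm (del m)] at hal
    have hd : del m ⟨R.card, hcm⟩ = (m : ℤ) - 1 - R.card := rfl
    rw [hd] at hal
    constructor <;> linarith

end PW
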