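import Pool.Agent.Lib.MP_3b3418_ag.PW.SpecG

/-! Project PV2, part G, module K4: states at stage 4. -/

set_option autoImplicit false

namespace PW

open MP3s PV

private theorem K4_le_nn {m : ℕ} (s b γ : Fin m → ℕ) (k : Fin m) :
    (s k : ℤ) + b k + γ k ≤ nn s b γ := by
  unfold nn
  refine Finset.single_le_sum (f := fun k => (s k : ℤ) + b k + γ k) ?_ (Finset.mem_univ k)
  intro i _
  positivity

private theorem K4_le_sum {m : ℕ} (γ : Fin m → ℕ) (k : Fin m) :
    (γ k : ℤ) ≤ ∑ k, (γ k : ℤ) := by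
  refine Finset.single_le_sum (f := fun k => (γ k : ℤ)) ?_ (Finset.mem_univ k)
  intro i _
  positivity

/-- if the row `1` is at most `δ_1` then at most one row is above `X` -/
private theorem K4_uu {m : ℕ} (h4 : 4 < m) (η : Fin m → ℤ) (s b γ : Fin m → ℕ)
    (hN : nn s b γ ≤ 1) (h1 : ∀ k : Fin m, 1 ≤ k.val → k.val < 3 → al η k ≤ 0) :
    uu 3 η s b γ ≤ 1 := by
  unfold uu
  refine le_trans (Finset.card_le_card (t := {⟨0, by omega⟩}) ?_) (by simp)
  intro l hl
  rw [Finset.mem_filter] at hl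
  obtain ⟨-, hl3, hl⟩ := hl
  rw [Finset.mem_singleton]
  by_contra hne
  have hl1 : 1 ≤ l.val := by
    rcases Nat.eq_zero_or_pos l.val with h | h
    · exact absurd (Fin.ext h) hne
    · exact h
  have e1 := h1 l hl1 hl3
  have e2 := K4_le_nn s b γ l
  unfold zt at hl
  rw [if_pos hl3] at hl
  unfold al del at e1
  have e3 : (1 : ℤ) ≤ l.val := by exact_mod_cast hl1
  linarith

theorem tK4 : S_P1 → S_P2 → S_TS → S_F1 → S_F3 → S_Ac → S_Q2 → S_Q3 → S_K4 := by
  intro hP1 _ hTS hF1 hF3 hAc hQ2 hQ3 m A C β hA hC q η V hPa hq4 hqm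
  rcases Nat.lt_or_ge q 2 with h2 | h2
  · obtain ⟨e1, e2⟩ := (hQ2 m A C β hA hC q η V hPa).1 (by omega)
    intro k
    rw [e1 k, e2]
  rcases Nat.eq_or_lt_of_le h2 with h2 | h2
  · subst h2
    obtain ⟨-, -, e1, e2, -, -⟩ := (hQ2 m A C β hA hC 2 η V hPa).2 rfl ⟨0, by omega⟩ ⟨1, by omega⟩
      rfl rfl
    intro k
    exact (e1 k).trans e2
  rcases Nat.eq_or_lt_of_le (Nat.succ_le_of_lt h2) with h3 | h3
  · have h3' : q = 3 := by omega
    subst h3'
    exact (hQ3 m A C β hA hC η V hPa).1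
  have h4 : q = 4 := by omega
  have hfin := (hAc m A C β hA hC).2.2 q η V hPa
  have h4m : 4 < m := by omega
  cases hPa with
  | zero => omega
  | step q0 η0 _ V0 h0 hS =>
    have hq0 : q0 = 3 := by omega
    subst hq0
    obtain ⟨-, hdec, htail, hsum⟩ := hfin
    have hst0 := (hAc m A C β hA hC).2.2 3 η0 V0 h0
    obtain ⟨-, hdec0, htail0, hsum0⟩ := hst0
    have hDD := (hAc m A C β hA hC).1 3 η0 η V0 hS
    obtain ⟨hQ3a, hQ3b⟩ := hQ3 m A C β hA hC η0 V0 h0
    generalize hs : co 3 (fun p => 1 - A p) = s at *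
    generalize hb : co 3 C = b at *
    generalize hγ : co 3 β = γ at *
    rw [hDD]
    obtain ⟨D, hD⟩ : ∃ D, D = DD A C β 3 V0 := ⟨_, rfl⟩
    rw [← hD] at hQ3a hQ3b ⊢
    have hz : ((⟨0, by omega⟩ : Fin m)).val = 0 := rfl
    have hz1 : ((⟨1, by omega⟩ : Fin m)).val = 1 := rfl
    obtain ⟨z, hzv⟩ : ∃ z : Fin m, z.val = 0 := ⟨⟨0, by omega⟩, rfl⟩
    obtain ⟨z1, hzv1⟩ : ∃ z : Fin m, z.val = 1 := ⟨⟨1, by omega⟩, rfl⟩
    obtain ⟨z3, hzv3⟩ : ∃ z : Fin m, z.val = 3 := ⟨⟨3, by omega⟩, rfl⟩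
    have hD0 : 0 ≤ D := by
      have e1 := hQ3a z3
      unfold al at e1
      rw [htail0 z3 (by omega)] at e1
      linarith
    have hTS4 := (hTS m 4 η hdec).2.2 htail hsum
    obtain ⟨-, htop, -⟩ := hTS4.1 z hzv
    intro k
    refine (htop k).trans ?_
    -- the main inequality
    obtain ⟨-, hu3, -, -⟩ := hP1 m 3 η0 η s b γ hS
    have hF1' := hF1 m 3 η0 η s b γ hS
    obtain ⟨hF3a, hF3b, hF3c⟩ := hF3 m 3 η0 η s b γ hS z hzv
    have hdd : dD 3 η0 s b γ = (inn 3 (zt 3 η0 s b γ) : ℤ) + (∑ k, (γ k : ℤ)) -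
        (uu 3 η0 s b γ - nn s b γ) := rfl
    have huu := K4_uu h4m η0 s b γ
    generalize hu : uu 3 η0 s b γ = u at *
    generalize hN : nn s b γ = N at *
    generalize hinv : inn 3 (zt 3 η0 s b γ) = inv at *
    generalize hdD : dD 3 η0 s b γ = d at *
    have hN0 : 0 ≤ N := by
      rw [← hN]
      unfold nn
      exact Finset.sum_nonneg fun i _ => by positivity
    obtain ⟨c, hc⟩ : ∃ c, c = ∑ k, (γ k : ℤ) := ⟨_, rfl⟩
    have hc0 : 0 ≤ c := by
      rw [hc]
      exact Finset.sum_nonneg fun i _ => by positivity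
    rw [← hc] at hdd
    have hcN : c ≤ N := by
      rw [hc, ← hN]
      unfold nn
      refine Finset.sum_le_sum fun i _ => ?_
      have : (0 : ℤ) ≤ (s i : ℤ) + b i := by positivity
      linarith
    have hinv0 : (0 : ℤ) ≤ inv := by positivity
    have hzD := hQ3a z
    rcases Nat.eq_zero_or_pos u with hu0 | hu0
    · obtain ⟨e1, e2⟩ := hF3a hu0
      rw [e2 z, hdd, hu0, e1]
      push_cast
      linarith
    obtain ⟨k0, hk0, hdiff, hkinv⟩ := hF3b hu0
    have hkinv' : (k0.val : ℤ) ≤ inv := by exact_mod_cast hkinv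
    have hk00 : (0 : ℤ) ≤ k0.val := by positivity
    have hs1 : (s k0 : ℤ) ≤ 1 := by exact_mod_cast hS.s1 k0
    have hb1 : (b k0 : ℤ) ≤ 1 := by exact_mod_cast hS.b1 k0
    have hγc : (γ k0 : ℤ) ≤ c := by
      rw [hc]
      exact K4_le_sum γ k0
    have hgN : (s k0 : ℤ) + b k0 + γ k0 ≤ N := by
      rw [← hN]
      exact K4_le_nn s b γ k0
    have hg0 : (0 : ℤ) ≤ (s k0 : ℤ) + b k0 + γ k0 := by positivity
    rcases lt_trichotomy (u : ℤ) N with hι | hι | hι
    · rw [hdd]
      linarith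
    · rcases le_or_gt (al η z - al η0 z) d with h | h
      · linarith
      · obtain ⟨e1, -, -, -, e2⟩ := hF3c hu0 hι h
        have e3 := hQ3b z z1 hzv hzv1 (e2 z1 hzv1)
        have e4 := e2 z1 hzv1
        linarith
    · have hu12 : u = 1 ∨ u = 2 ∨ u = 3 := by omega
      rcases hu12 with h | h | h
      · rw [h] at hι hdd
        push_cast at hι hdd
        have hN1 : N = 0 := by omega
        rw [hN1] at hgN hdd
        linarith
      · rw [h] at hι hdd
        push_cast at hι hdd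
        have e1 : 1 ≤ al η0 z1 := by
          by_contra hcon
          have e2 := huu (by omega) (by
            intro k hk1 hk3
            have e3 := ((hTS m 3 η0 hdec0).2.1 z1 k (by
              rw [Fin.le_def]
              omega) hk3).2
            omega)
          omega
        have e3 := hQ3b z z1 hzv hzv1 e1
        have hN2 : N = 0 ∨ N = 1 := by omega
        rcases hN2 with hN2 | hN2
        · rw [hN2] at hgN hdd
          linarith
        · rw [hN2] at hgN hdd
          linarith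
      · exfalso
        rw [h] at hF1' hι
        push_cast at hF1' hι
        have e1 : ∑ k : Fin m with k.val < 3, al η0 k = ∑ k, al η0 k := by
          rw [Finset.sum_filter]
          refine Finset.sum_congr rfl fun k _ => ?_
          split_ifs with hk
          · rfl
          · unfold al
            rw [htail0 k (by omega)]
            ring
        rw [e1, hsum0] at hF1'
        linarith

end PW
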